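import Pool.Agent.Lib.H54I.M1

/-! Chunk M2 (M).  The theorem.

Proof.  M2a: `Z(t) = ex t Fb - 2 ex t Ψ₁ + ex t ‖ee‖² - 2t ex t ⟨ee, w+c⟩ + 2 ex t ⟨ee, c⟩ - p(t)`, `Ψ₁ U = ⟨ee U, gs Uᶜ⟩`,
`c = w - v`, `p(t) = -(t² - (2/3)t³)(PP - WW) + (t²/2 - t³/3) SS + (t³/3)(⟨w,∑B_l w⟩ + ⟨c,∑B_l c⟩) - (2/3) t³ ⟨QQ, w+c⟩ + t² ⟨QQ,c⟩`.
By P1a, P1b, C2, M1 its derivative is `≤ 0` on `[0,1]`, so `Z 1 ≤ Z 0` (`antitoneOn_of_deriv_nonpos`).  By `C2z`, `Z 0 = 0`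
(`Fb ∅ = 0`, `ee ∅ = 0`) and `Z 1 = Fb univ + ‖E‖² - 2⟨E, w⟩ - p 1` with `E = ee univ` (`gs univᶜ = 0`).  `‖E‖² - 2⟨E,w⟩ ≥ -‖w‖²`.
So `Fb univ ≤ ‖w‖² + p 1`, and with `QQ = w + ∑B_l w`, `w = v + c`, `c = ∑ B_l v`, symmetry (`⟨∑B_l w, v⟩ = ⟨w, c⟩`) one gets
`‖w‖² + p 1 = (WW - PP)/3 + SS/6 + (‖w‖² + ⟨c, ∑B_l c⟩)/3`, and `‖w‖² + ⟨c,∑B_l c⟩ ≤ ⟨QQ, w⟩` because
`⟨w,∑B_l w⟩ - ⟨c,∑B_l c⟩ = ⟨v, ∑B_l v⟩ + 2⟨c, ∑B_l v⟩ ≥ 0`.
M2b: `2⟨QQ,w⟩ = 2∑⟨B_l vv l, w⟩ ≤ ∑⟨vv l, B_l vv l⟩ + ∑⟨w,B_l w⟩` (from `0 ≤ ⟨vv l - w, B_l (vv l - w)⟩`) `= PP + ⟨QQ,w⟩ - ‖w‖²`.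
M2c: `1 + ∑ B_l` is injective (`⟨x, x + ∑B_l x⟩ ≥ ‖x‖²`), so surjective in finite dimension
(`LinearMap.injective_iff_surjective`); take `w`, `v`, use M2a, M2b. -/

namespace H54I

private theorem M2_alg {ι K : Type*} [Fintype ι] [NormedAddCommGroup K]
    [InnerProductSpace ℝ K] (B : ι → K →ₗ[ℝ] K)
    (hsym : ∀ l x y, inner ℝ (B l x) y = inner ℝ x (B l y))
    (hpos : ∀ l x, 0 ≤ inner ℝ x (B l x)) (Q w v : K) (hw : w + ∑ l, B l w = Q)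
    (hv : v + ∑ l, B l v = w) :
    3 * ‖w‖ ^ 2 + (inner ℝ w (∑ l, B l w) + inner ℝ (w - v) (∑ l, B l (w - v)))
      + inner ℝ Q (w - v) ≤ 3 * inner ℝ Q w := by
  obtain ⟨c, hc⟩ : ∃ c : K, c = w - v := ⟨_, rfl⟩
  rw [← hc]
  have hwvc : w = v + c := by rw [hc]; abel
  have hcB : ∑ l, B l v = c := by
    have h1 : ∑ l, B l v = (v + ∑ l, B l v) - v := by abel
    rw [h1, hv, hc]
  have hB : ∀ x y : K, ∑ l, B l (x + y) = ∑ l, B l x + ∑ l, B l y := by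
    intro x y
    rw [← Finset.sum_add_distrib]
    exact Finset.sum_congr rfl fun l _ => map_add _ _ _
  have hS : ∀ x y : K, inner ℝ (∑ l, B l x) y = inner ℝ x (∑ l, B l y) := by
    intro x y
    rw [sum_inner, inner_sum]
    exact Finset.sum_congr rfl fun l _ => hsym l x y
  have hP : 0 ≤ inner ℝ v c := by
    rw [← hcB, inner_sum]
    exact Finset.sum_nonneg fun l _ => hpos l v
  have hBw : ∑ l, B l w = c + ∑ l, B l c := by rw [hwvc, hB, hcB]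
  have hvBc : inner ℝ v (∑ l, B l c) = ‖c‖ ^ 2 := by
    rw [← hS, hcB, real_inner_self_eq_norm_sq]
  have e1 : inner ℝ w (∑ l, B l w) = inner ℝ v c + 2 * ‖c‖ ^ 2 + inner ℝ c (∑ l, B l c) := by
    rw [hBw]
    nth_rewrite 1 [hwvc]
    rw [inner_add_left, inner_add_right, inner_add_right, hvBc, real_inner_self_eq_norm_sq]
    ring
  have e2 : inner ℝ w c = inner ℝ v c + ‖c‖ ^ 2 := by
    nth_rewrite 1 [hwvc]
    rw [inner_add_left, real_inner_self_eq_norm_sq]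
  have e3 : inner ℝ (∑ l, B l w) c = ‖c‖ ^ 2 + inner ℝ c (∑ l, B l c) := by
    rw [hBw, inner_add_left, real_inner_self_eq_norm_sq, real_inner_comm c (∑ l, B l c)]
  have e4 : inner ℝ Q c = inner ℝ w c + inner ℝ (∑ l, B l w) c := by
    rw [← hw, inner_add_left]
  have e5 : inner ℝ Q w = ‖w‖ ^ 2 + inner ℝ w (∑ l, B l w) := by
    rw [← hw, inner_add_left, real_inner_self_eq_norm_sq, hS]
  have hc0 : 0 ≤ ‖c‖ ^ 2 := sq_nonneg _
  rw [e4, e5, e2, e3, e1]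
  linarith

theorem M2a {ι K : Type*} [Fintype ι] [DecidableEq ι] [NormedAddCommGroup K] [InnerProductSpace ℝ K]
    (B : ι → K →ₗ[ℝ] K) (hsym : ∀ l x y, inner ℝ (B l x) y = inner ℝ x (B l y))
    (hpos : ∀ l x, 0 ≤ inner ℝ x (B l x)) (hle : ∀ l x, ‖B l x‖ ^ 2 ≤ inner ℝ x (B l x)) (G : ι → K)
    (w v : K) (hw : w + ∑ l, B l w = QQ B G) (hv : v + ∑ l, B l v = w) :
    Fb B G Finset.univ ≤
      (1 / 3) * (WW B G - PP B G + (1 / 2) * SS B G + inner ℝ (QQ B G) w) := by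
  obtain ⟨b, hb⟩ : ∃ b : ℝ, b = inner ℝ w (∑ l, B l w) + inner ℝ (w - v) (∑ l, B l (w - v)) :=
    ⟨_, rfl⟩
  obtain ⟨d, hd⟩ : ∃ d : ℝ, d = inner ℝ (QQ B G) (w + (w - v)) := ⟨_, rfl⟩
  obtain ⟨e, he⟩ : ∃ e : ℝ, e = inner ℝ (QQ B G) (w - v) := ⟨_, rfl⟩
  let p : ℝ → ℝ := fun t => (t ^ 2 / 2 - t ^ 3 / 3) * SS B G + t ^ 3 / 3 * b - 2 / 3 * t ^ 3 * d
    + t ^ 2 * e - (t ^ 2 - 2 / 3 * t ^ 3) * (PP B G - WW B G)
  let Z : ℝ → ℝ := fun t => ex t (Fb B G) - 2 * ex t (fun U => inner ℝ (ee B G U) (gs G Uᶜ))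
    + ex t (fun U => ‖ee B G U‖ ^ 2) - 2 * (t * ex t (fun U => inner ℝ (ee B G U) (w + (w - v))))
    + 2 * ex t (fun U => inner ℝ (ee B G U) (w - v)) - p t
  let Z' : ℝ → ℝ := fun t => flag t (fun l U => - 2 * inner ℝ (ee B G U) (G l))
    - 2 * flag t (fun l U => inner ℝ (ee B G (insert l U)) (gs G (insert l U)ᶜ)
        - inner ℝ (ee B G U) (gs G Uᶜ))
    + flag t (fun l U => ‖ee B G (insert l U)‖ ^ 2 - ‖ee B G U‖ ^ 2)
    - 2 * (1 * ex t (fun U => inner ℝ (ee B G U) (w + (w - v)))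
        + t * flag t (fun l U => inner ℝ (ee B G (insert l U)) (w + (w - v))
          - inner ℝ (ee B G U) (w + (w - v))))
    + 2 * flag t (fun l U => inner ℝ (ee B G (insert l U)) (w - v) - inner ℝ (ee B G U) (w - v))
    - ((t - t ^ 2) * SS B G + t ^ 2 * b - 2 * t ^ 2 * d + 2 * t * e
        - 2 * (t - t ^ 2) * (PP B G - WW B G))
  have hp : ∀ t, HasDerivAt p ((t - t ^ 2) * SS B G + t ^ 2 * b - 2 * t ^ 2 * d + 2 * t * e
        - 2 * (t - t ^ 2) * (PP B G - WW B G)) t := by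
    intro t
    have h2 : HasDerivAt (fun t : ℝ => t ^ 2) (2 * t) t := by
      have := hasDerivAt_pow 2 t
      simpa using this
    have h3 : HasDerivAt (fun t : ℝ => t ^ 3) (3 * t ^ 2) t := by
      have := hasDerivAt_pow 3 t
      simpa using this
    have h := ((((((h2.div_const 2).sub (h3.div_const 3)).mul_const (SS B G)).add
      ((h3.div_const 3).mul_const b)).sub ((h3.const_mul (2 / 3)).mul_const d)).add
      (h2.mul_const e)).sub ((h2.sub (h3.const_mul (2 / 3))).mul_const (PP B G - WW B G))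
    refine h.congr_deriv ?_
    ring
  have hZ : ∀ t, HasDerivAt Z (Z' t) t := by
    intro t
    have h1 := P1a B G t
    have h2 := C2 (fun U => inner ℝ (ee B G U) (gs G Uᶜ)) t
    have h3 := C2 (fun U => ‖ee B G U‖ ^ 2) t
    have h4 := C2 (fun U => inner ℝ (ee B G U) (w + (w - v))) t
    have h5 := C2 (fun U => inner ℝ (ee B G U) (w - v)) t
    exact ((((h1.sub (h2.const_mul 2)).add h3).sub (((hasDerivAt_id' t).mul h4).const_mul 2)).add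
      (h5.const_mul 2)).sub (hp t)
  have hZ0 : ∀ t ∈ interior (Set.Icc (0 : ℝ) 1), deriv Z t ≤ 0 := by
    intro t ht
    rw [interior_Icc] at ht
    rw [(hZ t).deriv]
    have h1 := M1 B hsym hpos hle G w v hw hv t ht.1.le ht.2.le
    have h2 := P1b B hsym G t
    rw [← hb, ← hd, ← he] at h1
    show flag t (fun l U => - 2 * inner ℝ (ee B G U) (G l)) - _ + _ - _ + _ - _ ≤ 0
    rw [h2]
    linarith
  have hanti : AntitoneOn Z (Set.Icc 0 1) :=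
    antitoneOn_of_deriv_nonpos (convex_Icc 0 1)
      (fun t _ => (hZ t).continuousAt.continuousWithinAt)
      (fun t _ => (hZ t).differentiableAt.differentiableWithinAt) hZ0
  have h01 : Z 1 ≤ Z 0 := hanti (by simp) (by simp) zero_le_one
  have hee : ee B G ∅ = 0 := rfl
  have hFb : Fb B G ∅ = 0 := rfl
  have hz0 : Z 0 = 0 := by
    show ex 0 (Fb B G) - 2 * ex 0 (fun U => inner ℝ (ee B G U) (gs G Uᶜ))
      + ex 0 (fun U => ‖ee B G U‖ ^ 2) - 2 * (0 * ex 0 (fun U => inner ℝ (ee B G U) (w + (w - v))))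
      + 2 * ex 0 (fun U => inner ℝ (ee B G U) (w - v)) - p 0 = 0
    rw [(C2z _).1, (C2z _).1, (C2z _).1, (C2z _).1, (C2z _).1, hee, hFb]
    simp [p]
  have hgs : gs G (Finset.univ : Finset ι)ᶜ = 0 := by simp [gs]
  have hz1 : Z 1 = Fb B G Finset.univ + ‖ee B G Finset.univ‖ ^ 2
      - 2 * inner ℝ (ee B G Finset.univ) w - p 1 := by
    show ex 1 (Fb B G) - 2 * ex 1 (fun U => inner ℝ (ee B G U) (gs G Uᶜ))
      + ex 1 (fun U => ‖ee B G U‖ ^ 2) - 2 * (1 * ex 1 (fun U => inner ℝ (ee B G U) (w + (w - v))))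
      + 2 * ex 1 (fun U => inner ℝ (ee B G U) (w - v)) - p 1 = _
    rw [(C2z _).2, (C2z _).2, (C2z _).2, (C2z _).2, (C2z _).2, hgs, inner_zero_right, inner_add_right]
    ring
  have hp1 : p 1 = 1 / 6 * SS B G + 1 / 3 * b - 2 / 3 * d + e - 1 / 3 * (PP B G - WW B G) := by
    show (1 ^ 2 / 2 - 1 ^ 3 / 3) * SS B G + 1 ^ 3 / 3 * b - 2 / 3 * 1 ^ 3 * d
      + 1 ^ 2 * e - (1 ^ 2 - 2 / 3 * 1 ^ 3) * (PP B G - WW B G) = _
    ring
  have hsq : 0 ≤ ‖ee B G Finset.univ - w‖ ^ 2 := sq_nonneg _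
  rw [norm_sub_sq_real] at hsq
  have halg := M2_alg B hsym hpos (QQ B G) w v hw hv
  rw [← hb, ← he] at halg
  have hdd : d = inner ℝ (QQ B G) w + e := by rw [hd, he, inner_add_right]
  rw [hz0, hz1, hp1, hdd] at h01
  linarith

theorem M2b {ι K : Type*} [Fintype ι] [DecidableEq ι] [NormedAddCommGroup K] [InnerProductSpace ℝ K]
    (B : ι → K →ₗ[ℝ] K) (hsym : ∀ l x y, inner ℝ (B l x) y = inner ℝ x (B l y))
    (hpos : ∀ l x, 0 ≤ inner ℝ x (B l x)) (G : ι → K)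
    (w : K) (hw : w + ∑ l, B l w = QQ B G) : inner ℝ (QQ B G) w ≤ PP B G := by
  have h1 : ∀ l, 0 ≤ inner ℝ (vv G l) (B l (vv G l)) - 2 * inner ℝ (B l (vv G l)) w
      + inner ℝ (B l w) w := by
    intro l
    have h2 := hpos l (vv G l - w)
    rw [map_sub, inner_sub_left, inner_sub_right, inner_sub_right] at h2
    have h3 : inner ℝ (vv G l) (B l w) = inner ℝ (B l (vv G l)) w := (hsym l _ _).symm
    have h4 : inner ℝ w (B l (vv G l)) = inner ℝ (B l (vv G l)) w := real_inner_comm _ _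
    have h5 : inner ℝ w (B l w) = inner ℝ (B l w) w := real_inner_comm _ _
    rw [h3, h4, h5] at h2
    linarith
  have h6 : 0 ≤ ∑ l, (inner ℝ (vv G l) (B l (vv G l)) - 2 * inner ℝ (B l (vv G l)) w
      + inner ℝ (B l w) w) := Finset.sum_nonneg fun l _ => h1 l
  rw [Finset.sum_add_distrib, Finset.sum_sub_distrib, ← Finset.mul_sum] at h6
  have h7 : ∑ l, inner ℝ (B l (vv G l)) w = inner ℝ (QQ B G) w := by
    rw [← sum_inner]
    rfl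
  have h8 : ∑ l, inner ℝ (B l w) w = inner ℝ (QQ B G) w - ‖w‖ ^ 2 := by
    rw [← sum_inner, ← hw, inner_add_left, real_inner_self_eq_norm_sq]
    ring
  have h9 : ∑ l, inner ℝ (vv G l) (B l (vv G l)) = PP B G := rfl
  rw [h7, h8, h9] at h6
  have h10 : 0 ≤ ‖w‖ ^ 2 := sq_nonneg _
  linarith

theorem M2c {ι K : Type*} [Fintype ι] [DecidableEq ι] [NormedAddCommGroup K] [InnerProductSpace ℝ K]
    [FiniteDimensional ℝ K]
    (B : ι → K →ₗ[ℝ] K) (hsym : ∀ l x y, inner ℝ (B l x) y = inner ℝ x (B l y))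
    (hpos : ∀ l x, 0 ≤ inner ℝ x (B l x)) (hle : ∀ l x, ‖B l x‖ ^ 2 ≤ inner ℝ x (B l x)) (G : ι → K) :
    Fb B G Finset.univ ≤ (1 / 3) * (WW B G + (1 / 2) * SS B G) := by
  let T : K →ₗ[ℝ] K := LinearMap.id + ∑ l, B l
  have hT : ∀ x, T x = x + ∑ l, B l x := by
    intro x
    show (LinearMap.id + ∑ l, B l : K →ₗ[ℝ] K) x = _
    rw [LinearMap.add_apply, LinearMap.id_apply, LinearMap.sum_apply]
  have hinj : Function.Injective T := by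
    rw [← LinearMap.ker_eq_bot, LinearMap.ker_eq_bot']
    intro x hx
    have h1 : inner ℝ x (T x) = ‖x‖ ^ 2 + ∑ l, inner ℝ x (B l x) := by
      rw [hT, inner_add_right, real_inner_self_eq_norm_sq, inner_sum]
    rw [hx, inner_zero_right] at h1
    have h2 : 0 ≤ ∑ l, inner ℝ x (B l x) := Finset.sum_nonneg fun l _ => hpos l x
    have h3 : ‖x‖ ^ 2 ≤ 0 := by linarith
    have h4 : ‖x‖ = 0 := by
      have := sq_nonneg ‖x‖
      exact pow_eq_zero_iff (two_ne_zero) |>.mp (le_antisymm h3 this)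
    exact norm_eq_zero.mp h4
  have hsurj : Function.Surjective T := LinearMap.injective_iff_surjective.mp hinj
  obtain ⟨w, hw⟩ := hsurj (QQ B G)
  obtain ⟨v, hv⟩ := hsurj w
  rw [hT] at hw hv
  have h1 := M2a B hsym hpos hle G w v hw hv
  have h2 := M2b B hsym hpos G w hw
  linarith

end H54I
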