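import Pool.Agent.Lib.H54I.Defs

/-! Chunk A1 (M).  Recursions for the means over orders.

Proof.  Induction on `n = card U` (generalised over `f`): `avg` is additive and homogeneous in `f`, `avg n U` of a constant
is the constant (`card U = n`), and if `card U = n`, `f = g` on all lists `L` with `L.Nodup` and `L.toFinset = U`, then
`avg n U f = avg n U g` (A1d; for lists `l :: L` with `l ∈ U`, `L` enumerating `U.erase l`).  A1a: for `L` enumerating
`U.erase l`, `gsum G L = ∑_{i ∈ U.erase l} G i`; unfold one step of `avg` for `card U = m + 1` (if `U = ∅` both sides are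
`0`), use linearity of `avg` and of `B l`.  A1b: the same for `Fst`, with `avg` of `inner (xst L) (G l)` =
`inner (avg xst) (G l)`.  A1c is monotonicity, same induction. -/

namespace H54I

private theorem avg_map {ι E E' : Type*} [DecidableEq ι] [AddCommGroup E] [Module ℝ E]
    [AddCommGroup E'] [Module ℝ E'] (φ : E →ₗ[ℝ] E') :
    ∀ (n : ℕ) (U : Finset ι) (f : List ι → E), φ (avg n U f) = avg n U (fun L => φ (f L)) := by
  intro n
  induction n with
  | zero => intro U f; rfl
  | succ n ih =>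
    intro U f
    show φ (((n : ℝ) + 1)⁻¹ • ∑ l ∈ U, avg n (U.erase l) (fun L => f (l :: L))) =
      ((n : ℝ) + 1)⁻¹ • ∑ l ∈ U, avg n (U.erase l) (fun L => φ (f (l :: L)))
    rw [map_smul, map_sum]
    simp only [ih]

private theorem avg_add' {ι E : Type*} [DecidableEq ι] [AddCommGroup E] [Module ℝ E] :
    ∀ (n : ℕ) (U : Finset ι) (f g : List ι → E),
      avg n U (fun L => f L + g L) = avg n U f + avg n U g := by
  intro n
  induction n with
  | zero => intro U f g; rfl
  | succ n ih =>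
    intro U f g
    show ((n : ℝ) + 1)⁻¹ • ∑ l ∈ U, avg n (U.erase l) (fun L => f (l :: L) + g (l :: L)) =
      ((n : ℝ) + 1)⁻¹ • ∑ l ∈ U, avg n (U.erase l) (fun L => f (l :: L)) +
      ((n : ℝ) + 1)⁻¹ • ∑ l ∈ U, avg n (U.erase l) (fun L => g (l :: L))
    rw [← smul_add, ← Finset.sum_add_distrib]
    simp only [ih]

private theorem avg_sub' {ι E : Type*} [DecidableEq ι] [AddCommGroup E] [Module ℝ E] :
    ∀ (n : ℕ) (U : Finset ι) (f g : List ι → E),
      avg n U (fun L => f L - g L) = avg n U f - avg n U g := by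
  intro n
  induction n with
  | zero => intro U f g; rfl
  | succ n ih =>
    intro U f g
    show ((n : ℝ) + 1)⁻¹ • ∑ l ∈ U, avg n (U.erase l) (fun L => f (l :: L) - g (l :: L)) =
      ((n : ℝ) + 1)⁻¹ • ∑ l ∈ U, avg n (U.erase l) (fun L => f (l :: L)) -
      ((n : ℝ) + 1)⁻¹ • ∑ l ∈ U, avg n (U.erase l) (fun L => g (l :: L))
    rw [← smul_sub, ← Finset.sum_sub_distrib]
    simp only [ih]

private theorem cons_ok {ι : Type*} [DecidableEq ι] {U : Finset ι} {l : ι} (hl : l ∈ U)
    {L : List ι} (h1 : L.Nodup) (h2 : L.toFinset = U.erase l) :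
    (l :: L).Nodup ∧ (l :: L).toFinset = U := by
  constructor
  · rw [List.nodup_cons]
    refine ⟨fun h => ?_, h1⟩
    have : l ∈ L.toFinset := List.mem_toFinset.mpr h
    rw [h2] at this
    exact Finset.notMem_erase l U this
  · rw [List.toFinset_cons, h2, Finset.insert_erase hl]

private theorem card_erase' {ι : Type*} [DecidableEq ι] {U : Finset ι} {l : ι} (hl : l ∈ U)
    {n : ℕ} (hU : U.card = n + 1) : (U.erase l).card = n := by
  rw [Finset.card_erase_of_mem hl, hU]; rfl

private theorem avg_congr' {ι E : Type*} [DecidableEq ι] [AddCommGroup E] [Module ℝ E] :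
    ∀ (n : ℕ) (U : Finset ι) (_ : U.card = n) (f g : List ι → E)
    (_ : ∀ L : List ι, L.Nodup → L.toFinset = U → f L = g L), avg n U f = avg n U g := by
  intro n
  induction n with
  | zero =>
    intro U hU f g h
    have hU' : U = ∅ := Finset.card_eq_zero.mp hU
    subst hU'
    exact h [] List.nodup_nil rfl
  | succ n ih =>
    intro U hU f g h
    show ((n : ℝ) + 1)⁻¹ • ∑ l ∈ U, avg n (U.erase l) (fun L => f (l :: L)) =
      ((n : ℝ) + 1)⁻¹ • ∑ l ∈ U, avg n (U.erase l) (fun L => g (l :: L))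
    refine congrArg _ (Finset.sum_congr rfl fun l hl => ?_)
    refine ih _ (card_erase' hl hU) _ _ fun L h1 h2 => ?_
    obtain ⟨h3, h4⟩ := cons_ok hl h1 h2
    exact h _ h3 h4

private theorem avg_mono' {ι : Type*} [DecidableEq ι] :
    ∀ (n : ℕ) (U : Finset ι) (_ : U.card = n) (f g : List ι → ℝ)
    (_ : ∀ L : List ι, L.Nodup → L.toFinset = U → f L ≤ g L), avg n U f ≤ avg n U g := by
  intro n
  induction n with
  | zero =>
    intro U hU f g h
    have hU' : U = ∅ := Finset.card_eq_zero.mp hU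
    subst hU'
    exact h [] List.nodup_nil rfl
  | succ n ih =>
    intro U hU f g h
    show ((n : ℝ) + 1)⁻¹ • ∑ l ∈ U, avg n (U.erase l) (fun L => f (l :: L)) ≤
      ((n : ℝ) + 1)⁻¹ • ∑ l ∈ U, avg n (U.erase l) (fun L => g (l :: L))
    have hn : (0 : ℝ) ≤ ((n : ℝ) + 1)⁻¹ := by positivity
    refine smul_le_smul_of_nonneg_left (Finset.sum_le_sum fun l hl => ?_) hn
    refine ih _ (card_erase' hl hU) _ _ fun L h1 h2 => ?_
    obtain ⟨h3, h4⟩ := cons_ok hl h1 h2
    exact h _ h3 h4

private theorem avg_const' {ι E : Type*} [DecidableEq ι] [AddCommGroup E] [Module ℝ E] (c : E) :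
    ∀ (n : ℕ) (U : Finset ι) (_ : U.card = n), avg n U (fun _ => c) = c := by
  intro n
  induction n with
  | zero => intro U _; rfl
  | succ n ih =>
    intro U hU
    show ((n : ℝ) + 1)⁻¹ • ∑ l ∈ U, avg n (U.erase l) (fun _ => c) = c
    have h1 : ∑ l ∈ U, avg n (U.erase l) (fun _ => c) = ((n : ℝ) + 1) • c := by
      rw [Finset.sum_congr rfl fun l hl => ih _ (card_erase' hl hU), Finset.sum_const, hU,
        ← Nat.cast_smul_eq_nsmul ℝ]
      push_cast
      rfl
    rw [h1, smul_smul, inv_mul_cancel₀ (by positivity), one_smul]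

private theorem gsum_eq {ι K : Type*} [DecidableEq ι] [AddCommGroup K] (G : ι → K) :
    ∀ L : List ι, L.Nodup → gsum G L = gs G L.toFinset := by
  intro L
  induction L with
  | nil => intro _; simp [gsum, gs]
  | cons l L ih =>
    intro h
    rw [List.nodup_cons] at h
    have h3 : l ∉ L.toFinset := fun h' => h.1 (List.mem_toFinset.mp h')
    have h4 := ih h.2
    unfold gs at h4 ⊢
    rw [List.toFinset_cons, Finset.sum_insert h3, ← h4]
    rfl

private theorem card_smul_avg {ι E : Type*} [DecidableEq ι] [AddCommGroup E] [Module ℝ E]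
    (U : Finset ι) (f : List ι → E) :
    (U.card : ℝ) • avg U.card U f =
      ∑ l ∈ U, avg (U.erase l).card (U.erase l) (fun L => f (l :: L)) := by
  rcases Nat.eq_zero_or_pos U.card with h | h
  · have hU' : U = ∅ := Finset.card_eq_zero.mp h
    subst hU'
    simp
  · obtain ⟨m, hm⟩ : ∃ m, U.card = m + 1 := ⟨U.card - 1, by omega⟩
    rw [hm]
    show ((m + 1 : ℕ) : ℝ) • (((m : ℝ) + 1)⁻¹ • ∑ l ∈ U, avg m (U.erase l) (fun L => f (l :: L))) = _
    rw [smul_smul]
    have h1 : ((m + 1 : ℕ) : ℝ) * ((m : ℝ) + 1)⁻¹ = 1 := by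
      push_cast
      exact mul_inv_cancel₀ (by positivity)
    rw [h1, one_smul]
    refine Finset.sum_congr rfl fun l hl => ?_
    rw [card_erase' hl hm]

theorem A1a {ι K : Type*} [DecidableEq ι] [AddCommGroup K] [Module ℝ K]
    (B : ι → K →ₗ[ℝ] K) (G : ι → K) (U : Finset ι) :
    (U.card : ℝ) • ee B G U =
      ∑ l ∈ U, (ee B G (U.erase l) - B l (ee B G (U.erase l)) + B l (gs G (U.erase l))) := by
  have h0 := card_smul_avg U (xst B G)
  unfold ee
  rw [h0]
  refine Finset.sum_congr rfl fun l _ => ?_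
  have h1 : (fun L => xst B G (l :: L)) =
      fun L => (xst B G L - B l (xst B G L)) + B l (gsum G L) := rfl
  rw [h1, avg_add' _ _ (fun L => xst B G L - B l (xst B G L)) (fun L => B l (gsum G L)),
    avg_sub' _ _ (fun L => xst B G L) (fun L => B l (xst B G L)),
    ← avg_map (B l) _ _ (fun L => xst B G L), ← avg_map (B l) _ _ (fun L => gsum G L)]
  have h2 : avg (U.erase l).card (U.erase l) (fun L => gsum G L) = gs G (U.erase l) := by
    rw [avg_congr' _ _ rfl (fun L => gsum G L) (fun _ => gs G (U.erase l))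
      (fun L hL hL' => by rw [gsum_eq G L hL, hL'])]
    exact avg_const' _ _ _ rfl
  rw [h2]

theorem A1b {ι K : Type*} [DecidableEq ι] [NormedAddCommGroup K] [InnerProductSpace ℝ K]
    (B : ι → K →ₗ[ℝ] K) (G : ι → K) (U : Finset ι) :
    (U.card : ℝ) * Fb B G U =
      ∑ l ∈ U, (Fb B G (U.erase l) - 2 * inner ℝ (ee B G (U.erase l)) (G l)) := by
  have h0 := card_smul_avg U (Fst B G)
  rw [smul_eq_mul] at h0
  unfold Fb
  rw [h0]
  refine Finset.sum_congr rfl fun l _ => ?_
  have h1 : (fun L => Fst B G (l :: L)) =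
      fun L => Fst B G L - 2 * inner ℝ (xst B G L) (G l) := rfl
  rw [h1, avg_sub' _ _ (fun L => Fst B G L) (fun L => 2 * inner ℝ (xst B G L) (G l))]
  have h2 := avg_map ((2 : ℝ) • (innerₛₗ ℝ (G l) : K →ₗ[ℝ] ℝ)) (U.erase l).card (U.erase l)
    (fun L => xst B G L)
  have h3 : (fun L => ((2 : ℝ) • (innerₛₗ ℝ (G l) : K →ₗ[ℝ] ℝ)) (xst B G L)) =
      fun L => 2 * inner ℝ (xst B G L) (G l) := by
    funext L
    rw [LinearMap.smul_apply, innerₛₗ_apply_apply, real_inner_comm, smul_eq_mul]
  rw [h3, LinearMap.smul_apply, innerₛₗ_apply_apply, real_inner_comm, smul_eq_mul] at h2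
  rw [← h2]
  rfl

theorem A1c {ι : Type*} [DecidableEq ι] (n : ℕ) (U : Finset ι) (hU : U.card = n)
    (f g : List ι → ℝ) (h : ∀ L : List ι, L.Nodup → L.toFinset = U → f L ≤ g L) :
    avg n U f ≤ avg n U g := avg_mono' n U hU f g h

theorem A1d {ι E : Type*} [DecidableEq ι] [AddCommGroup E] [Module ℝ E] (n : ℕ) (U : Finset ι)
    (hU : U.card = n) (f g : List ι → E)
    (h : ∀ L : List ι, L.Nodup → L.toFinset = U → f L = g L) :
    avg n U f = avg n U g := avg_congr' n U hU f g h

theorem A1e {ι E : Type*} [DecidableEq ι] [AddCommGroup E] [Module ℝ E] (n : ℕ) (U : Finset ι)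
    (hU : U.card = n) (c : E) : avg n U (fun _ => c) = c := avg_const' c n U hU

end H54I
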