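import Pool.Agent.Lib.H54I.A1

/-! Chunk A2 (S/M).  The recursion of `ee` in terms of the symmetric family `ss`; sums of `ss`.

Proof.  A2a: in `A1a` the last terms sum to `∑_{l ∈ U} ∑_{i ∈ U.erase l} B_l G_i`; the sum over ordered pairs `l ≠ i` of `U`
is symmetric under exchange of `l` and `i` (`Finset.sum_comm'`), so it equals the sum of `(B_l G_i + B_i G_l)/2 = ss l i`.
A2b: `QQ = ∑_l ∑_{i ≠ l} B_l G_i = ∑_{l ≠ i} ss l i = ∑_l rho l` in the same way.  A2c: `ss l l = 0`, split `univ` into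
`U`, `l` and the rest. A2d, A2e: definitions. A2f: for a fixed set `U`, the sum over ordered pairs `l ≠ i` of `Uᶜ`. -/

namespace H54I

private theorem A2_key {ι K : Type*} [DecidableEq ι] [AddCommGroup K] [Module ℝ K]
    (B : ι → K →ₗ[ℝ] K) (G : ι → K) (U : Finset ι) :
    ∑ l ∈ U, B l (gs G (U.erase l)) = ∑ l ∈ U, ∑ i ∈ U.erase l, ss B G l i := by
  have h1 : ∑ l ∈ U, ∑ i ∈ U.erase l, B i (G l) = ∑ l ∈ U, ∑ i ∈ U.erase l, B l (G i) := by
    apply Finset.sum_comm'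
    intro x y
    simp only [Finset.mem_erase]
    constructor
    · rintro ⟨h1, h2, h3⟩
      exact ⟨⟨fun h => h2 h.symm, h1⟩, h3⟩
    · rintro ⟨⟨h1, h2⟩, h3⟩
      exact ⟨h2, fun h => h1 h.symm, h3⟩
  have h2 : ∑ l ∈ U, ∑ i ∈ U.erase l, ss B G l i =
      ∑ l ∈ U, ∑ i ∈ U.erase l, (2 : ℝ)⁻¹ • (B l (G i) + B i (G l)) := by
    refine Finset.sum_congr rfl fun l _ => Finset.sum_congr rfl fun i hi => ?_
    unfold ss
    rw [if_neg]
    exact fun h => (Finset.mem_erase.1 hi).1 h.symm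
  rw [h2]
  simp only [← Finset.smul_sum, Finset.sum_add_distrib]
  rw [h1]
  have h3 : ∑ l ∈ U, B l (gs G (U.erase l)) = ∑ l ∈ U, ∑ i ∈ U.erase l, B l (G i) := by
    refine Finset.sum_congr rfl fun l _ => ?_
    unfold gs
    rw [map_sum]
  rw [h3, ← two_smul ℝ, smul_smul, inv_mul_cancel₀ (two_ne_zero), one_smul]

theorem A2a {ι K : Type*} [DecidableEq ι] [AddCommGroup K] [Module ℝ K]
    (B : ι → K →ₗ[ℝ] K) (G : ι → K) (U : Finset ι) :
    (U.card : ℝ) • ee B G U =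
      ∑ l ∈ U, (ee B G (U.erase l) - B l (ee B G (U.erase l)) + ∑ i ∈ U.erase l, ss B G l i) := by
  rw [A1a, Finset.sum_add_distrib, Finset.sum_add_distrib, A2_key]

theorem A2b {ι K : Type*} [Fintype ι] [DecidableEq ι] [AddCommGroup K] [Module ℝ K]
    (B : ι → K →ₗ[ℝ] K) (G : ι → K) : ∑ l, rho B G l = QQ B G := by
  have h1 : ∀ l, rho B G l = ∑ i ∈ Finset.univ.erase l, ss B G l i := by
    intro l
    unfold rho
    rw [← Finset.add_sum_erase Finset.univ _ (Finset.mem_univ l)]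
    have : ss B G l l = 0 := by
      unfold ss
      rw [if_pos rfl]
    rw [this, zero_add]
  have h2 : ∀ l, vv G l = gs G (Finset.univ.erase l) := by
    intro l
    unfold vv gs
    rw [← Finset.add_sum_erase Finset.univ _ (Finset.mem_univ l), add_sub_cancel_left]
  unfold QQ
  simp only [h1, h2]
  rw [A2_key]

theorem A2c {ι K : Type*} [Fintype ι] [DecidableEq ι] [AddCommGroup K] [Module ℝ K]
    (B : ι → K →ₗ[ℝ] K) (G : ι → K) (t : ℝ) (l : ι) (U : Finset ι) (hl : l ∉ U) :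
    ∑ i ∈ (insert l U)ᶜ, ss B G l i = (1 - t) • rho B G l - al B G t l U := by
  have h1 : ss B G l l = 0 := by
    unfold ss
    rw [if_pos rfl]
  have h2 := Finset.sum_add_sum_compl (insert l U) (fun i => ss B G l i)
  rw [Finset.sum_insert hl, h1, zero_add] at h2
  have h3 : rho B G l = ∑ i, ss B G l i := rfl
  unfold al
  rw [h3, ← h2, sub_smul, one_smul]
  abel

theorem A2d {ι K : Type*} [DecidableEq ι] [AddCommGroup K] [Module ℝ K]
    (B : ι → K →ₗ[ℝ] K) (G : ι → K) (l i : ι) : ss B G l i = ss B G i l := by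
  unfold ss
  by_cases h : l = i
  · rw [if_pos h, if_pos h.symm]
  · rw [if_neg h, if_neg (fun hh => h hh.symm), add_comm]

theorem A2e {ι K : Type*} [DecidableEq ι] [AddCommGroup K] [Module ℝ K]
    (B : ι → K →ₗ[ℝ] K) (G : ι → K) : ee B G ∅ = 0 := by
  rfl

theorem A2f {ι K : Type*} [Fintype ι] [DecidableEq ι] [AddCommGroup K] [Module ℝ K]
    (B : ι → K →ₗ[ℝ] K) (G : ι → K) (U : Finset ι) :
    ∑ l ∈ Uᶜ, B l (gs G (insert l U)ᶜ) = ∑ l ∈ Uᶜ, ∑ i ∈ (insert l U)ᶜ, ss B G l i := by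
  simp only [Finset.compl_insert]
  exact A2_key B G Uᶜ

end H54I
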