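import Pool.Agent.Lib.H54I.Defs

/-! Chunk C1 (S/M).  Reindexing of flags: `(l, U) ↦ (l, insert l U)`.

Proof.  `flag t (fun l U => f l (insert l U)) = ∑_U ∑_{l ∉ U} om t U * f l (insert l U)`.  Write both sides as sums over
pairs `(l, U)` (`Finset.sum_sigma'` or `Finset.sum_comm'`) and use the bijection `U ↦ insert l U`, inverse
`U' ↦ U'.erase l`, between `{U : l ∉ U}` and `{U' : l ∈ U'}`; `card (insert l U) = card U + 1` gives
`om t U = om' t (insert l U)`.  Second statement: `t * om' t U = ww t U` if `U` is nonempty, and for `U = ∅` the inner sum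
is empty. Third: `(1 - t) * om t U = ww t U` if `U ≠ univ` (then `card U < card ι`), else the sum over `Uᶜ` is empty. -/

namespace H54I

private theorem c1_swap {ι : Type*} [Fintype ι] [DecidableEq ι] (g : ι → Finset ι → ℝ) :
    ∑ U : Finset ι, ∑ l ∈ Uᶜ, g l U =
      ∑ l : ι, ∑ U ∈ (Finset.univ : Finset (Finset ι)).filter (fun U => l ∉ U), g l U := by
  refine Finset.sum_comm' fun U l => ?_
  simp

private theorem c1_swap' {ι : Type*} [Fintype ι] [DecidableEq ι] (g : ι → Finset ι → ℝ) :
    ∑ U : Finset ι, ∑ l ∈ U, g l U =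
      ∑ l : ι, ∑ U ∈ (Finset.univ : Finset (Finset ι)).filter (fun U => l ∈ U), g l U := by
  refine Finset.sum_comm' fun U l => ?_
  simp

private theorem c1_om {ι : Type*} [Fintype ι] [DecidableEq ι] (t : ℝ) (l : ι) (U : Finset ι)
    (h : l ∉ U) : om t U = om' t (insert l U) := by
  unfold om om'
  rw [Finset.card_insert_of_notMem h, Nat.add_sub_cancel]
  congr 2
  omega

theorem C1a {ι : Type*} [Fintype ι] [DecidableEq ι] (t : ℝ) (f : ι → Finset ι → ℝ) :
    flag t (fun l U => f l (insert l U)) = ∑ U : Finset ι, om' t U * ∑ l ∈ U, f l U := by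
  unfold flag
  simp_rw [Finset.mul_sum]
  rw [c1_swap (fun l U => om t U * f l (insert l U)), c1_swap' (fun l U => om' t U * f l U)]
  refine Finset.sum_congr rfl fun l _ => ?_
  refine Finset.sum_bij' (fun U _ => insert l U) (fun U _ => U.erase l) ?_ ?_ ?_ ?_ ?_
  · intro U _
    simp
  · intro U _
    simp
  · intro U hU
    exact Finset.erase_insert (Finset.mem_filter.1 hU).2
  · intro U hU
    exact Finset.insert_erase (Finset.mem_filter.1 hU).2
  · intro U hU
    rw [c1_om t l U (Finset.mem_filter.1 hU).2]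

theorem C1b {ι : Type*} [Fintype ι] [DecidableEq ι] (t : ℝ) (f : ι → Finset ι → ℝ) :
    t * flag t (fun l U => f l (insert l U)) = ex t (fun U => ∑ l ∈ U, f l U) := by
  rw [C1a]
  unfold ex
  rw [Finset.mul_sum]
  refine Finset.sum_congr rfl fun U _ => ?_
  rcases U.eq_empty_or_nonempty with h | h
  · subst h
    simp
  · have h1 : 0 < U.card := h.card_pos
    have h2 : t * om' t U = ww t U := by
      unfold om' ww
      rw [← mul_assoc, ← pow_succ', Nat.sub_add_cancel h1]
    rw [← mul_assoc, h2]

theorem C1c {ι : Type*} [Fintype ι] [DecidableEq ι] (t : ℝ) (f : ι → Finset ι → ℝ) :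
    (1 - t) * flag t f = ex t (fun U => ∑ l ∈ Uᶜ, f l U) := by
  unfold flag ex
  rw [Finset.mul_sum]
  refine Finset.sum_congr rfl fun U _ => ?_
  rw [← Finset.mul_sum, ← mul_assoc]
  by_cases h : U = Finset.univ
  · subst h
    simp
  · have h1 : U.card < Fintype.card ι := by
      rw [← Finset.card_univ]
      exact Finset.card_lt_card (Finset.ssubset_univ_iff.2 h)
    have h2 : (1 - t) * om t U = ww t U := by
      unfold om ww
      have h3 : Fintype.card ι - U.card = (Fintype.card ι - 1 - U.card) + 1 := by omega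
      rw [h3, pow_succ']
      ring
    rw [h2]

end H54I
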