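import Pool.Agent.Lib.H54I.C1

/-! Chunk C2 (M).  The derivative of the expectation.

Proof.  `d/dt (t^u (1-t)^(n-u)) = u t^(u-1) (1-t)^(n-u) - (n-u) t^u (1-t)^(n-u-1)` for `u = card U ≤ n`.  Hence the derivative
of `ex t Ψ` is `∑_U (card U) om' t U Ψ U - ∑_U (n - card U) om t U Ψ U` (for `U = univ` the second coefficient is `0`), and
`C1a` with `f l U = Ψ U` (`∑_{l ∈ U} Ψ U = card U * Ψ U`, `Finset.sum_const`) gives the first sum as
`flag t (fun l U => Ψ (insert l U))`; the second one is `flag t (fun l U => Ψ U)` (`Finset.card_compl`). -/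

namespace H54I

theorem C2 {ι : Type*} [Fintype ι] [DecidableEq ι] (Ψ : Finset ι → ℝ) (t : ℝ) :
    HasDerivAt (fun t => ex t Ψ) (flag t (fun l U => Ψ (insert l U) - Ψ U)) t := by
  have hd : ∀ u m : ℕ, HasDerivAt (fun t : ℝ => t ^ u * (1 - t) ^ m)
      ((u : ℝ) * (t ^ (u - 1) * (1 - t) ^ m) - (m : ℝ) * (t ^ u * (1 - t) ^ (m - 1))) t := by
    intro u m
    have h1 : HasDerivAt (fun t : ℝ => t ^ u) ((u : ℝ) * t ^ (u - 1)) t := hasDerivAt_pow u t
    have h2 : HasDerivAt (fun t : ℝ => (1 - t) ^ m) ((m : ℝ) * (1 - t) ^ (m - 1) * (-1)) t :=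
      ((hasDerivAt_id' t).const_sub 1).pow m
    have h3 := h1.mul h2
    refine h3.congr_deriv ?_
    ring
  have hsplit : flag t (fun l U => Ψ (insert l U) - Ψ U) =
      flag t (fun l U => Ψ (insert l U)) - flag t (fun _ U => Ψ U) := by
    unfold flag
    rw [← Finset.sum_sub_distrib]
    refine Finset.sum_congr rfl fun U _ => ?_
    rw [← Finset.sum_sub_distrib]
    exact Finset.sum_congr rfl fun l _ => mul_sub _ _ _
  have hval : flag t (fun l U => Ψ (insert l U) - Ψ U) =
      ∑ U : Finset ι, (((U.card : ℕ) : ℝ) * (t ^ (U.card - 1) * (1 - t) ^ (Fintype.card ι - U.card)) -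
        ((Fintype.card ι - U.card : ℕ) : ℝ) * (t ^ U.card * (1 - t) ^ (Fintype.card ι - U.card - 1))) * Ψ U := by
    rw [hsplit, C1a t (fun _ U => Ψ U)]
    unfold flag
    rw [← Finset.sum_sub_distrib]
    refine Finset.sum_congr rfl fun U _ => ?_
    rw [Finset.sum_const, Finset.sum_const, Finset.card_compl, nsmul_eq_mul, nsmul_eq_mul]
    unfold om om'
    rw [Nat.sub_right_comm]
    ring
  rw [hval]
  unfold ex
  refine HasDerivAt.fun_sum fun U _ => ?_
  exact (hd U.card (Fintype.card ι - U.card)).mul_const (Ψ U)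

/-- boundary values -/
theorem C2z {ι : Type*} [Fintype ι] [DecidableEq ι] (Ψ : Finset ι → ℝ) :
    ex 0 Ψ = Ψ ∅ ∧ ex 1 Ψ = Ψ Finset.univ := by
  constructor
  · unfold ex
    rw [Finset.sum_eq_single (∅ : Finset ι)]
    · simp [ww]
    · intro U _ hU
      have h : U.card ≠ 0 := fun h => hU (Finset.card_eq_zero.mp h)
      simp [ww, zero_pow h]
    · intro h
      exact absurd (Finset.mem_univ _) h
  · unfold ex
    rw [Finset.sum_eq_single (Finset.univ : Finset ι)]
    · simp [ww]
    · intro U _ hU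
      have h : U.card < Fintype.card ι := (Finset.card_lt_iff_ne_univ U).mpr hU
      have h2 : Fintype.card ι - U.card ≠ 0 := by omega
      simp [ww, zero_pow h2]
    · intro h
      exact absurd (Finset.mem_univ _) h

end H54I
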