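import Pool.Agent.Lib.H54I.Defs

/-! Chunk C3 (M).  Moments of a random set: for fixed `l`, the flags `(l, U)` carry the law of a random subset of
`univ.erase l`, every element being present independently with probability `t`.

Proof.  Exchange the sums: `flag t f = ∑_l ∑_{U ∈ (univ.erase l).powerset} om t U * f l U`.  For a finite set `S` with `m`
elements, `∑_{U ⊆ S} t^|U| (1-t)^(m-|U|) = (t + (1-t))^m = 1` (`Finset.sum_pow_mul_eq_add_pow`), here `m = n - 1`.  For
`i ∈ S`: the part with `i ∈ U` is `t` times the same sum for `S.erase i`, so it is `t`; for `i ≠ j` in `S` the part with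
`i, j ∈ U` is `t^2`.  (If `l ∈ U` nothing occurs, since `U ⊆ univ.erase l`.)  For the double sum split off the diagonal. -/

namespace H54I

private noncomputable def C3w {ι : Type*} (t : ℝ) (S U : Finset ι) : ℝ :=
  t ^ U.card * (1 - t) ^ (S.card - U.card)

private theorem C3_w_one {ι : Type*} [DecidableEq ι] (t : ℝ) (S : Finset ι) :
    ∑ U ∈ S.powerset, C3w t S U = 1 := by
  unfold C3w
  rw [Finset.sum_pow_mul_eq_add_pow]
  simp

private theorem C3_flag {ι : Type*} [Fintype ι] [DecidableEq ι] (t : ℝ) (f : ι → Finset ι → ℝ) :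
    flag t f = ∑ l, ∑ U ∈ (Finset.univ.erase l).powerset, C3w t (Finset.univ.erase l) U * f l U := by
  unfold flag
  rw [Finset.sum_comm' (s' := fun l => (Finset.univ.erase l).powerset) (t' := Finset.univ)]
  · refine Finset.sum_congr rfl fun l _ => Finset.sum_congr rfl fun U _ => ?_
    have hc : (Finset.univ.erase l).card = Fintype.card ι - 1 := by
      rw [Finset.card_erase_of_mem (Finset.mem_univ l), Finset.card_univ]
    unfold C3w om
    rw [hc]
  · intro U l
    simp only [Finset.mem_univ, true_and, and_true, Finset.mem_compl, Finset.mem_powerset]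
    constructor
    · intro h x hx
      refine Finset.mem_erase.2 ⟨?_, Finset.mem_univ x⟩
      rintro rfl
      exact h hx
    · intro h hl
      exact (Finset.mem_erase.1 (h hl)).1 rfl

private theorem C3_step {ι : Type*} [DecidableEq ι] (t : ℝ) (S : Finset ι) (i : ι) (hi : i ∈ S)
    (f : Finset ι → ℝ) :
    ∑ U ∈ S.powerset, C3w t S U * (if i ∈ U then f U else 0) =
      t * ∑ U ∈ (S.erase i).powerset, C3w t (S.erase i) U * f (insert i U) := by
  have hS : S = insert i (S.erase i) := (Finset.insert_erase hi).symm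
  have hni : i ∉ S.erase i := Finset.notMem_erase i S
  have h1 : ∑ U ∈ S.powerset, C3w t S U * (if i ∈ U then f U else 0) =
      ∑ U ∈ (insert i (S.erase i)).powerset, C3w t S U * (if i ∈ U then f U else 0) := by
    rw [← hS]
  rw [h1, Finset.sum_powerset_insert hni, Finset.mul_sum]
  have h2 : ∑ U ∈ (S.erase i).powerset, C3w t S U * (if i ∈ U then f U else 0) = 0 := by
    refine Finset.sum_eq_zero fun U hU => ?_
    have : i ∉ U := fun h => hni (Finset.mem_powerset.1 hU h)
    rw [if_neg this, mul_zero]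
  rw [h2, zero_add]
  refine Finset.sum_congr rfl fun U hU => ?_
  have hiU : i ∉ U := fun h => hni (Finset.mem_powerset.1 hU h)
  rw [if_pos (Finset.mem_insert_self i U)]
  have hc1 : (insert i U).card = U.card + 1 := Finset.card_insert_of_notMem hiU
  have hc2 : S.card = (S.erase i).card + 1 := (Finset.card_erase_add_one hi).symm
  unfold C3w
  rw [hc1, hc2, Nat.add_sub_add_right, pow_succ]
  ring

private theorem C3_one {ι : Type*} [DecidableEq ι] (t : ℝ) (S : Finset ι) (i : ι) (hi : i ∈ S) :
    ∑ U ∈ S.powerset, C3w t S U * (if i ∈ U then 1 else 0) = t := by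
  rw [C3_step t S i hi (fun _ => 1)]
  simp only [mul_one]
  rw [C3_w_one, mul_one]

private theorem C3_two {ι : Type*} [DecidableEq ι] (t : ℝ) (S : Finset ι) (i j : ι) (hi : i ∈ S)
    (hj : j ∈ S) :
    ∑ U ∈ S.powerset, C3w t S U * (if i ∈ U then (if j ∈ U then 1 else 0) else 0) =
      t ^ 2 + (if i = j then t - t ^ 2 else 0) := by
  by_cases hij : i = j
  · subst hij
    rw [if_pos rfl]
    have : ∀ U : Finset ι, (if i ∈ U then (if i ∈ U then (1 : ℝ) else 0) else 0) = if i ∈ U then 1 else 0 := by
      intro U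
      by_cases h : i ∈ U <;> simp [h]
    simp only [this]
    rw [C3_one t S i hi]
    ring
  · rw [if_neg hij, C3_step t S i hi (fun U => if j ∈ U then 1 else 0)]
    have hj' : j ∈ S.erase i := Finset.mem_erase.2 ⟨fun h => hij h.symm, hj⟩
    have : ∀ U : Finset ι, (if j ∈ insert i U then (1 : ℝ) else 0) = if j ∈ U then 1 else 0 := by
      intro U
      by_cases h : j ∈ U
      · simp [h]
      · have : j ∉ insert i U := by
          rw [Finset.mem_insert]
          rintro (h' | h')
          · exact hij h'.symm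
          · exact h h'
        rw [if_neg this, if_neg h]
    simp only [this]
    rw [C3_one t (S.erase i) j hj']
    ring

private theorem C3_sum_sub {ι : Type*} [DecidableEq ι] (S U : Finset ι) (hU : U ⊆ S) (g : ι → ℝ) :
    ∑ i ∈ U, g i = ∑ i ∈ S, if i ∈ U then g i else 0 := by
  rw [← Finset.sum_filter]
  refine Finset.sum_congr ?_ fun _ _ => rfl
  ext x
  simp only [Finset.mem_filter]
  exact ⟨fun h => ⟨hU h, h⟩, fun h => h.2⟩

theorem C3a {ι : Type*} [Fintype ι] [DecidableEq ι] (t : ℝ) (a : ι → ℝ) :
    flag t (fun l _ => a l) = ∑ l, a l := by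
  rw [C3_flag]
  refine Finset.sum_congr rfl fun l _ => ?_
  rw [← Finset.sum_mul, C3_w_one, one_mul]

theorem C3b {ι : Type*} [Fintype ι] [DecidableEq ι] (t : ℝ) (g : ι → ι → ℝ) :
    flag t (fun l U => ∑ i ∈ U, g l i) = t * ∑ l, ∑ i ∈ Finset.univ.erase l, g l i := by
  rw [C3_flag, Finset.mul_sum]
  refine Finset.sum_congr rfl fun l _ => ?_
  have h1 : ∀ U ∈ (Finset.univ.erase l).powerset,
      C3w t (Finset.univ.erase l) U * ∑ i ∈ U, g l i =
        ∑ i ∈ Finset.univ.erase l, g l i * (C3w t (Finset.univ.erase l) U * (if i ∈ U then 1 else 0)) := by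
    intro U hU
    rw [C3_sum_sub (Finset.univ.erase l) U (Finset.mem_powerset.1 hU), Finset.mul_sum]
    refine Finset.sum_congr rfl fun i _ => ?_
    by_cases h : i ∈ U
    · simp only [h, if_true]; ring
    · simp only [h, if_false]; ring
  rw [Finset.sum_congr rfl h1, Finset.sum_comm, Finset.mul_sum]
  refine Finset.sum_congr rfl fun i hi => ?_
  rw [← Finset.mul_sum, C3_one t _ i hi]
  ring

theorem C3c {ι : Type*} [Fintype ι] [DecidableEq ι] (t : ℝ) (g : ι → ι → ι → ℝ) :
    flag t (fun l U => ∑ i ∈ U, ∑ j ∈ U, g l i j) =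
      t ^ 2 * (∑ l, ∑ i ∈ Finset.univ.erase l, ∑ j ∈ Finset.univ.erase l, g l i j) +
        (t - t ^ 2) * ∑ l, ∑ i ∈ Finset.univ.erase l, g l i i := by
  rw [C3_flag, Finset.mul_sum, Finset.mul_sum, ← Finset.sum_add_distrib]
  refine Finset.sum_congr rfl fun l _ => ?_
  have h1 : ∀ U ∈ (Finset.univ.erase l).powerset,
      C3w t (Finset.univ.erase l) U * ∑ i ∈ U, ∑ j ∈ U, g l i j =
        ∑ i ∈ Finset.univ.erase l, ∑ j ∈ Finset.univ.erase l, g l i j *
          (C3w t (Finset.univ.erase l) U * (if i ∈ U then (if j ∈ U then 1 else 0) else 0)) := by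
    intro U hU
    have hU' := Finset.mem_powerset.1 hU
    rw [C3_sum_sub (Finset.univ.erase l) U hU', Finset.mul_sum]
    refine Finset.sum_congr rfl fun i _ => ?_
    by_cases h : i ∈ U
    · simp only [h, if_true]
      rw [C3_sum_sub (Finset.univ.erase l) U hU', Finset.mul_sum]
      refine Finset.sum_congr rfl fun j _ => ?_
      by_cases h' : j ∈ U
      · simp only [h', if_true]; ring
      · simp only [h', if_false]; ring
    · simp only [h, if_false, mul_zero, Finset.sum_const_zero]
  rw [Finset.sum_congr rfl h1, Finset.sum_comm, Finset.mul_sum, Finset.mul_sum, ← Finset.sum_add_distrib]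
  refine Finset.sum_congr rfl fun i hi => ?_
  rw [Finset.sum_comm, Finset.mul_sum]
  have h2 : ∀ j ∈ Finset.univ.erase l,
      (∑ U ∈ (Finset.univ.erase l).powerset, g l i j *
        (C3w t (Finset.univ.erase l) U * (if i ∈ U then (if j ∈ U then 1 else 0) else 0))) =
      t ^ 2 * g l i j + (if i = j then (t - t ^ 2) * g l i j else 0) := by
    intro j hj
    rw [← Finset.mul_sum, C3_two t _ i j hi hj]
    by_cases h : i = j
    · simp only [h, if_true]; ring
    · simp only [h, if_false]; ring
  rw [Finset.sum_congr rfl h2, Finset.sum_add_distrib]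
  congr 1
  rw [Finset.sum_ite_eq, if_pos hi]

end H54I
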