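import Mathlib

/-! Definitions for the once-only random order inequality (seminar MP_afe93a). -/

namespace H54I

/-- Average over all orders of the `n`-element set `U` of a function of the list of its elements;
the head of the list is the LAST element of the order. -/
noncomputable def avg {ι E : Type*} [DecidableEq ι] [AddCommGroup E] [Module ℝ E] :
    ℕ → Finset ι → (List ι → E) → E
  | 0, _, f => f []
  | n + 1, U, f => ((n : ℝ) + 1)⁻¹ • ∑ l ∈ U, avg n (U.erase l) (fun L => f (l :: L))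

/-- Sum of the vectors `G i` over a list. -/
def gsum {ι K : Type*} [AddCommGroup K] (G : ι → K) : List ι → K
  | [] => 0
  | l :: L => G l + gsum G L

/-- The error vector `x` of the chain: `x(L then l) = x(L) - B_l x(L) + B_l g(L)`. -/
def xst {ι K : Type*} [AddCommGroup K] [Module ℝ K] (B : ι → K →ₗ[ℝ] K) (G : ι → K) : List ι → K
  | [] => 0
  | l :: L => xst B G L - B l (xst B G L) + B l (gsum G L)

/-- The functional `F` of the chain: `F(L then l) = F(L) - 2 ⟨x(L), G_l⟩`. -/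
noncomputable def Fst {ι K : Type*} [NormedAddCommGroup K] [InnerProductSpace ℝ K]
    (B : ι → K →ₗ[ℝ] K) (G : ι → K) : List ι → ℝ
  | [] => 0
  | l :: L => Fst B G L - 2 * inner ℝ (xst B G L) (G l)

/-- Weight of a set at time `t`. -/
def ww {ι : Type*} [Fintype ι] (t : ℝ) (U : Finset ι) : ℝ :=
  t ^ U.card * (1 - t) ^ (Fintype.card ι - U.card)

/-- Weight of a flag `(l, U)`, `l ∉ U`, at time `t`. -/
def om {ι : Type*} [Fintype ι] (t : ℝ) (U : Finset ι) : ℝ :=
  t ^ U.card * (1 - t) ^ (Fintype.card ι - 1 - U.card)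

/-- The weight of the flag `(l, U.erase l)`, `l ∈ U`, in terms of `U`. -/
def om' {ι : Type*} [Fintype ι] (t : ℝ) (U : Finset ι) : ℝ :=
  t ^ (U.card - 1) * (1 - t) ^ (Fintype.card ι - U.card)

/-- Expectation over sets. -/
noncomputable def ex {ι : Type*} [Fintype ι] (t : ℝ) (g : Finset ι → ℝ) : ℝ :=
  ∑ U : Finset ι, ww t U * g U

/-- Sum over flags `(l, U)`, `l ∉ U`. -/
noncomputable def flag {ι : Type*} [Fintype ι] [DecidableEq ι] (t : ℝ) (f : ι → Finset ι → ℝ) : ℝ :=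
  ∑ U : Finset ι, ∑ l ∈ Uᶜ, om t U * f l U

/-- `g_U`, the sum of the vectors over a set. -/
def gs {ι K : Type*} [AddCommGroup K] (G : ι → K) (U : Finset ι) : K := ∑ i ∈ U, G i

/-- The mean error vector `e_U`. -/
noncomputable def ee {ι K : Type*} [DecidableEq ι] [AddCommGroup K] [Module ℝ K]
    (B : ι → K →ₗ[ℝ] K) (G : ι → K) (U : Finset ι) : K := avg U.card U (xst B G)

/-- The mean of `F` over the orders of `U`. -/
noncomputable def Fb {ι K : Type*} [DecidableEq ι] [NormedAddCommGroup K] [InnerProductSpace ℝ K]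
    (B : ι → K →ₗ[ℝ] K) (G : ι → K) (U : Finset ι) : ℝ := avg U.card U (Fst B G)

/-- The symmetric part of the pair errors, `s_li = (B_l G_i + B_i G_l)/2` for `l ≠ i`, `s_ll = 0`. -/
noncomputable def ss {ι K : Type*} [DecidableEq ι] [AddCommGroup K] [Module ℝ K]
    (B : ι → K →ₗ[ℝ] K) (G : ι → K) (l i : ι) : K :=
  if l = i then 0 else (2 : ℝ)⁻¹ • (B l (G i) + B i (G l))

/-- Row sums of `s`. -/
noncomputable def rho {ι K : Type*} [Fintype ι] [DecidableEq ι] [AddCommGroup K] [Module ℝ K]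
    (B : ι → K →ₗ[ℝ] K) (G : ι → K) (l : ι) : K := ∑ i, ss B G l i

/-- `v_l = P - G_l`. -/
def vv {ι K : Type*} [Fintype ι] [AddCommGroup K] (G : ι → K) (l : ι) : K := (∑ i, G i) - G l

/-- `Q = ∑ B_l (P - G_l)`. -/
def QQ {ι K : Type*} [Fintype ι] [AddCommGroup K] [Module ℝ K]
    (B : ι → K →ₗ[ℝ] K) (G : ι → K) : K := ∑ l, B l (vv G l)

/-- `W = ∑_{l ≠ i} ⟨G_i, B_l G_i⟩`. -/
noncomputable def WW {ι K : Type*} [Fintype ι] [DecidableEq ι] [NormedAddCommGroup K]
    [InnerProductSpace ℝ K] (B : ι → K →ₗ[ℝ] K) (G : ι → K) : ℝ :=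
  ∑ l, ∑ i ∈ Finset.univ.erase l, inner ℝ (G i) (B l (G i))

/-- `Π = ∑_l ⟨P - G_l, B_l (P - G_l)⟩`. -/
noncomputable def PP {ι K : Type*} [Fintype ι] [NormedAddCommGroup K]
    [InnerProductSpace ℝ K] (B : ι → K →ₗ[ℝ] K) (G : ι → K) : ℝ :=
  ∑ l, inner ℝ (vv G l) (B l (vv G l))

/-- `S = ∑_{l ≠ i} ⟨s_li, s_li + B_l s_li⟩`. -/
noncomputable def SS {ι K : Type*} [Fintype ι] [DecidableEq ι] [NormedAddCommGroup K]
    [InnerProductSpace ℝ K] (B : ι → K →ₗ[ℝ] K) (G : ι → K) : ℝ :=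
  ∑ l, ∑ i ∈ Finset.univ.erase l, inner ℝ (ss B G l i) (ss B G l i + B l (ss B G l i))

/-- The time dependent increment `α_{l,U}(t) = ∑_{i ∈ U} s_li - t ρ_l`. -/
noncomputable def al {ι K : Type*} [Fintype ι] [DecidableEq ι] [AddCommGroup K] [Module ℝ K]
    (B : ι → K →ₗ[ℝ] K) (G : ι → K) (t : ℝ) (l : ι) (U : Finset ι) : K :=
  (∑ i ∈ U, ss B G l i) - t • rho B G l

end H54I
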