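import Pool.Agent.Lib.H54I.A2
import Pool.Agent.Lib.H54I.C2

/-! Chunk P2 (M).  The energy identity at time `t`.

Notation: `x⁺ = ee U - B_l (ee U) + al t l U` for a flag `(l, U)`.
Proof.  P2a: for all vectors `‖f‖² = ‖x‖² - ‖f - x‖² + 2⟨f, f - x⟩`, with `f = ee (insert l U)`, `x = x⁺`.  By `C1a` (with
`f l U = ⟨ee U, ee U - (ee (U.erase l) - B_l ee (U.erase l) + al t l (U.erase l))⟩`),
`flag t (fun l U => ⟨f, f - x⁺⟩) = ∑_U om' t U ⟨ee U, (card U) ee U - ∑_{l ∈ U} (ee (U.erase l) - B_l .. + ∑_{i ∈ U.erase l} ss l i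
- t rho l)⟩ = ∑_U om' t U t ⟨ee U, ∑_{l ∈ U} rho l⟩` by `A2a`, and `t om' t U = ww t U` for nonempty `U` (`C1b` form).
P2b: `A2c` and `C1c` (`(1-t) * flag`).
P2c: `flag t (fun l U => ⟨ee (insert l U), y⟩) = flag t (fun l U => ⟨ee U - B_l ee U + ∑_{i ∈ U} ss l i, y⟩)` by `C1a`, `A2a`;
`∑_{i ∈ U} ss l i = al + t rho l`; in the statement the `al` term is kept (it is `0` by chunk P3).
P2d: `C1b` with `f l U = ⟨ee U, B_l c⟩`, then `∑_{l ∈ U} = ∑_l - ∑_{l ∈ Uᶜ}` and `C1c`. -/

namespace H54I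

private theorem flag_congr' {ι : Type*} [Fintype ι] [DecidableEq ι] (t : ℝ) (f g : ι → Finset ι → ℝ)
    (h : ∀ l U, l ∉ U → f l U = g l U) : flag t f = flag t g := by
  unfold flag
  refine Finset.sum_congr rfl fun U _ => Finset.sum_congr rfl fun l hl => ?_
  rw [h l U (Finset.mem_compl.1 hl)]

private theorem flag_add' {ι : Type*} [Fintype ι] [DecidableEq ι] (t : ℝ) (f g : ι → Finset ι → ℝ) :
    flag t (fun l U => f l U + g l U) = flag t f + flag t g := by
  unfold flag
  simp only [mul_add, Finset.sum_add_distrib]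

private theorem flag_mul' {ι : Type*} [Fintype ι] [DecidableEq ι] (t c : ℝ) (f : ι → Finset ι → ℝ) :
    flag t (fun l U => c * f l U) = c * flag t f := by
  unfold flag
  rw [Finset.mul_sum]
  refine Finset.sum_congr rfl fun U _ => ?_
  rw [Finset.mul_sum]
  refine Finset.sum_congr rfl fun l _ => ?_
  ring

private theorem ex_congr' {ι : Type*} [Fintype ι] (t : ℝ) (f g : Finset ι → ℝ)
    (h : ∀ U, f U = g U) : ex t f = ex t g := by
  unfold ex
  refine Finset.sum_congr rfl fun U _ => ?_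
  rw [h U]

private theorem xsum {ι K : Type*} [Fintype ι] [DecidableEq ι] [NormedAddCommGroup K]
    [InnerProductSpace ℝ K] (B : ι → K →ₗ[ℝ] K) (G : ι → K) (t : ℝ) (U : Finset ι) :
    ∑ l ∈ U, (ee B G U - (ee B G (U.erase l) - B l (ee B G (U.erase l)) + al B G t l (U.erase l))) =
      t • ∑ l ∈ U, rho B G l := by
  have h := A2a B G U
  rw [Finset.sum_sub_distrib, Finset.sum_const, ← Nat.cast_smul_eq_nsmul ℝ, h,
    ← Finset.sum_sub_distrib, Finset.smul_sum]
  refine Finset.sum_congr rfl fun l _ => ?_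
  unfold al
  abel

/-- the pairing of the defect with a vector depending on the new set only -/
private theorem key {ι K : Type*} [Fintype ι] [DecidableEq ι] [NormedAddCommGroup K]
    [InnerProductSpace ℝ K] (B : ι → K →ₗ[ℝ] K) (G : ι → K) (t : ℝ) (Y : Finset ι → K) :
    flag t (fun l U => inner ℝ (Y (insert l U))
        (ee B G (insert l U) - (ee B G U - B l (ee B G U) + al B G t l U))) =
      ex t (fun U => inner ℝ (Y U) (∑ l ∈ U, rho B G l)) := by
  have h1 : flag t (fun l U => inner ℝ (Y (insert l U))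
        (ee B G (insert l U) - (ee B G U - B l (ee B G U) + al B G t l U))) =
      ∑ U : Finset ι, om' t U * ∑ l ∈ U, inner ℝ (Y U)
        (ee B G U - (ee B G (U.erase l) - B l (ee B G (U.erase l)) + al B G t l (U.erase l))) := by
    rw [← C1a t (fun l V => inner ℝ (Y V)
        (ee B G V - (ee B G (V.erase l) - B l (ee B G (V.erase l)) + al B G t l (V.erase l))))]
    refine flag_congr' t _ _ fun l U hl => ?_
    rw [Finset.erase_insert hl]
  have h2 : ex t (fun U => inner ℝ (Y U) (∑ l ∈ U, rho B G l)) =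
      t * ∑ U : Finset ι, om' t U * ∑ l ∈ U, inner ℝ (Y U) (rho B G l) := by
    rw [← C1a t (fun l V => inner ℝ (Y V) (rho B G l)),
      C1b t (fun l V => inner ℝ (Y V) (rho B G l))]
    refine ex_congr' t _ _ fun U => ?_
    rw [inner_sum]
  rw [h1, h2, Finset.mul_sum]
  refine Finset.sum_congr rfl fun U _ => ?_
  rw [← inner_sum, ← inner_sum, xsum, inner_smul_right]
  ring

theorem P2a {ι K : Type*} [Fintype ι] [DecidableEq ι] [NormedAddCommGroup K] [InnerProductSpace ℝ K]
    (B : ι → K →ₗ[ℝ] K) (G : ι → K) (t : ℝ) :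
    flag t (fun l U => ‖ee B G (insert l U)‖ ^ 2 - ‖ee B G U‖ ^ 2) =
      flag t (fun l U => ‖ee B G U - B l (ee B G U) + al B G t l U‖ ^ 2 - ‖ee B G U‖ ^ 2
          - ‖ee B G (insert l U) - (ee B G U - B l (ee B G U) + al B G t l U)‖ ^ 2)
        + 2 * ex t (fun U => inner ℝ (ee B G U) (∑ l ∈ U, rho B G l)) := by
  have h1 : flag t (fun l U => ‖ee B G (insert l U)‖ ^ 2 - ‖ee B G U‖ ^ 2) =
      flag t (fun l U => (‖ee B G U - B l (ee B G U) + al B G t l U‖ ^ 2 - ‖ee B G U‖ ^ 2
          - ‖ee B G (insert l U) - (ee B G U - B l (ee B G U) + al B G t l U)‖ ^ 2) +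
          2 * inner ℝ (ee B G (insert l U))
            (ee B G (insert l U) - (ee B G U - B l (ee B G U) + al B G t l U))) := by
    refine flag_congr' t _ _ fun l U _ => ?_
    have h := norm_sub_sq_real (ee B G (insert l U))
      (ee B G (insert l U) - (ee B G U - B l (ee B G U) + al B G t l U))
    rw [sub_sub_cancel] at h
    rw [h]
    ring
  rw [h1, flag_add', flag_mul', key B G t (fun U => ee B G U)]

theorem P2b {ι K : Type*} [Fintype ι] [DecidableEq ι] [NormedAddCommGroup K] [InnerProductSpace ℝ K]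
    (B : ι → K →ₗ[ℝ] K) (G : ι → K) (t : ℝ) :
    flag t (fun l U => 2 * inner ℝ (ee B G U) (∑ i ∈ (insert l U)ᶜ, ss B G l i)) =
      - 2 * flag t (fun l U => inner ℝ (ee B G U) (al B G t l U))
        + 2 * ex t (fun U => inner ℝ (ee B G U) (∑ l ∈ Uᶜ, rho B G l)) := by
  have h1 : flag t (fun l U => 2 * inner ℝ (ee B G U) (∑ i ∈ (insert l U)ᶜ, ss B G l i)) =
      flag t (fun l U => (-2) * inner ℝ (ee B G U) (al B G t l U) +
        (2 * (1 - t)) * inner ℝ (ee B G U) (rho B G l)) := by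
    refine flag_congr' t _ _ fun l U hl => ?_
    rw [A2c B G t l U hl, inner_sub_right, inner_smul_right]
    ring
  have h2 : ex t (fun U => inner ℝ (ee B G U) (∑ l ∈ Uᶜ, rho B G l)) =
      ex t (fun U => ∑ l ∈ Uᶜ, inner ℝ (ee B G U) (rho B G l)) := by
    refine ex_congr' t _ _ fun U => ?_
    rw [inner_sum]
  rw [h1, flag_add', flag_mul', flag_mul', h2, ← C1c]
  ring

theorem P2c {ι K : Type*} [Fintype ι] [DecidableEq ι] [NormedAddCommGroup K] [InnerProductSpace ℝ K]
    (B : ι → K →ₗ[ℝ] K) (G : ι → K) (y : K) (t : ℝ) :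
    flag t (fun l U => inner ℝ (ee B G (insert l U)) y - inner ℝ (ee B G U) y) =
      - flag t (fun l U => inner ℝ (B l (ee B G U)) y) + flag t (fun l U => inner ℝ (al B G t l U) y)
        + t * flag t (fun l _ => inner ℝ (rho B G l) y) := by
  have h1 : flag t (fun l U => inner ℝ (ee B G (insert l U)) y - inner ℝ (ee B G U) y) =
      flag t (fun l U => ((-1) * inner ℝ (B l (ee B G U)) y + inner ℝ (al B G t l U) y) +
        inner ℝ y (ee B G (insert l U) - (ee B G U - B l (ee B G U) + al B G t l U))) := by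
    refine flag_congr' t _ _ fun l U hl => ?_
    rw [real_inner_comm (ee B G (insert l U) - (ee B G U - B l (ee B G U) + al B G t l U)) y,
      inner_sub_left, inner_add_left, inner_sub_left]
    ring
  have h2 : ex t (fun U => inner ℝ y (∑ l ∈ U, rho B G l)) =
      t * flag t (fun l _ => inner ℝ (rho B G l) y) := by
    rw [C1b t (fun l _ => inner ℝ (rho B G l) y)]
    refine ex_congr' t _ _ fun U => ?_
    rw [real_inner_comm, sum_inner]
  rw [h1, flag_add', flag_add', flag_mul', key B G t (fun _ => y), h2]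
  ring

theorem P2d {ι K : Type*} [Fintype ι] [DecidableEq ι] [NormedAddCommGroup K] [InnerProductSpace ℝ K]
    (B : ι → K →ₗ[ℝ] K) (G : ι → K) (c : K) (t : ℝ) :
    t * flag t (fun l U => inner ℝ (ee B G (insert l U)) (B l c)) =
      ex t (fun U => inner ℝ (ee B G U) (∑ l, B l c))
        - (1 - t) * flag t (fun l U => inner ℝ (ee B G U) (B l c)) := by
  have h1 : ex t (fun U => inner ℝ (ee B G U) (∑ l, B l c)) =
      ex t (fun U => ∑ l ∈ U, inner ℝ (ee B G U) (B l c)) +
      ex t (fun U => ∑ l ∈ Uᶜ, inner ℝ (ee B G U) (B l c)) := by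
    unfold ex
    rw [← Finset.sum_add_distrib]
    refine Finset.sum_congr rfl fun U _ => ?_
    rw [← mul_add, Finset.sum_add_sum_compl]
    simp only [inner_sum]
  rw [h1, C1b t (fun l U => inner ℝ (ee B G U) (B l c)),
    C1c t (fun l U => inner ℝ (ee B G U) (B l c))]
  ring

end H54I
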