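import Pool.Agent.Lib.H54I.A2
import Pool.Agent.Lib.H54I.C3

/-! Chunk P3 (M).  Moments of `al`.

Proof.  `rho l = ∑_{i ≠ l} ss l i` (`ss l l = 0`).  P3a: by `C3b` and `C3a`, `flag t ⟨∑_{i ∈ U} ss l i, y_l⟩ = t ∑_l ∑_{i ≠ l}
⟨ss l i, y_l⟩ = t ∑_l ⟨rho l, y_l⟩ = t flag t ⟨rho l, y_l⟩`.
P3b: with a linear map `T_l` (symmetric), `⟨al, T_l al⟩ = ∑_{i,j ∈ U} ⟨ss l i, T_l ss l j⟩ - 2t ∑_{i ∈ U} ⟨ss l i, T_l rho l⟩
+ t² ⟨rho l, T_l rho l⟩`; `C3c`, `C3b`, `C3a` give `t² R + (t - t²) D - 2t² R + t² R = (t - t²) D`, with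
`R = ∑_l ⟨rho l, T_l rho l⟩`, `D = ∑_l ∑_{i ≠ l} ⟨ss l i, T_l ss l i⟩`; take `T_l = 1 + B_l`. -/

namespace H54I

private theorem P3_flag_congr {ι : Type*} [Fintype ι] [DecidableEq ι] (t : ℝ)
    (f g : ι → Finset ι → ℝ) (h : ∀ U : Finset ι, ∀ l, l ∉ U → f l U = g l U) :
    flag t f = flag t g := by
  unfold flag
  refine Finset.sum_congr rfl fun U _ => Finset.sum_congr rfl fun l hl => ?_
  rw [h U l (Finset.mem_compl.1 hl)]

private theorem P3_flag_add {ι : Type*} [Fintype ι] [DecidableEq ι] (t : ℝ)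
    (f g : ι → Finset ι → ℝ) :
    flag t (fun l U => f l U + g l U) = flag t f + flag t g := by
  unfold flag
  rw [← Finset.sum_add_distrib]
  refine Finset.sum_congr rfl fun U _ => ?_
  rw [← Finset.sum_add_distrib]
  exact Finset.sum_congr rfl fun l _ => mul_add _ _ _

private theorem P3_flag_sub {ι : Type*} [Fintype ι] [DecidableEq ι] (t : ℝ)
    (f g : ι → Finset ι → ℝ) :
    flag t (fun l U => f l U - g l U) = flag t f - flag t g := by
  unfold flag
  rw [← Finset.sum_sub_distrib]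
  refine Finset.sum_congr rfl fun U _ => ?_
  rw [← Finset.sum_sub_distrib]
  exact Finset.sum_congr rfl fun l _ => mul_sub _ _ _

private theorem P3_flag_smul {ι : Type*} [Fintype ι] [DecidableEq ι] (t c : ℝ)
    (f : ι → Finset ι → ℝ) :
    flag t (fun l U => c * f l U) = c * flag t f := by
  unfold flag
  rw [Finset.mul_sum]
  refine Finset.sum_congr rfl fun U _ => ?_
  rw [Finset.mul_sum]
  exact Finset.sum_congr rfl fun l _ => by ring

private theorem P3_rho {ι K : Type*} [Fintype ι] [DecidableEq ι] [AddCommGroup K] [Module ℝ K]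
    (B : ι → K →ₗ[ℝ] K) (G : ι → K) (l : ι) :
    rho B G l = ∑ i ∈ Finset.univ.erase l, ss B G l i := by
  unfold rho
  rw [← Finset.add_sum_erase Finset.univ _ (Finset.mem_univ l)]
  have : ss B G l l = 0 := by
    unfold ss
    rw [if_pos rfl]
  rw [this, zero_add]


theorem P3a {ι K : Type*} [Fintype ι] [DecidableEq ι] [NormedAddCommGroup K] [InnerProductSpace ℝ K]
    (B : ι → K →ₗ[ℝ] K) (G : ι → K) (y : ι → K) (t : ℝ) :
    flag t (fun l U => inner ℝ (al B G t l U) (y l)) = 0 := by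
  have h1 : flag t (fun l U => inner ℝ (al B G t l U) (y l)) =
      flag t (fun l U => (∑ i ∈ U, inner ℝ (ss B G l i) (y l)) - t * inner ℝ (rho B G l) (y l)) := by
    refine P3_flag_congr t _ _ fun U l _ => ?_
    unfold al
    rw [inner_sub_left, sum_inner, real_inner_smul_left]
  rw [h1, P3_flag_sub t (fun l U => ∑ i ∈ U, inner ℝ (ss B G l i) (y l))
      (fun l _ => t * inner ℝ (rho B G l) (y l)),
    P3_flag_smul t t (fun l _ => inner ℝ (rho B G l) (y l)),
    C3b t (fun l i => inner ℝ (ss B G l i) (y l)),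
    C3a t (fun l => inner ℝ (rho B G l) (y l))]
  have h2 : ∑ l, ∑ i ∈ Finset.univ.erase l, (inner ℝ (ss B G l i) (y l) : ℝ) =
      ∑ l, (inner ℝ (rho B G l) (y l) : ℝ) := by
    refine Finset.sum_congr rfl fun l _ => ?_
    rw [← sum_inner, ← P3_rho]
  rw [h2, sub_self]

theorem P3b {ι K : Type*} [Fintype ι] [DecidableEq ι] [NormedAddCommGroup K] [InnerProductSpace ℝ K]
    (B : ι → K →ₗ[ℝ] K) (hsym : ∀ l x y, inner ℝ (B l x) y = inner ℝ x (B l y)) (G : ι → K) (t : ℝ) :
    flag t (fun l U => ‖al B G t l U‖ ^ 2 + inner ℝ (al B G t l U) (B l (al B G t l U))) =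
      (t - t ^ 2) * SS B G := by
  -- the linear map `T_l = 1 + B_l`
  have hT : ∀ l (x : K), ‖x‖ ^ 2 + inner ℝ x (B l x) = inner ℝ x (x + B l x) := by
    intro l x
    rw [inner_add_right, real_inner_self_eq_norm_sq]
  have h1 : flag t (fun l U => ‖al B G t l U‖ ^ 2 + inner ℝ (al B G t l U) (B l (al B G t l U))) =
      flag t (fun l U => (∑ i ∈ U, ∑ j ∈ U, inner ℝ (ss B G l i) (ss B G l j + B l (ss B G l j)))
        - t * (∑ i ∈ U, (inner ℝ (ss B G l i) (rho B G l + B l (rho B G l)) +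
            inner ℝ (rho B G l) (ss B G l i + B l (ss B G l i))))
        + t ^ 2 * inner ℝ (rho B G l) (rho B G l + B l (rho B G l))) := by
    refine P3_flag_congr t _ _ fun U l _ => ?_
    rw [hT]
    have e1 : al B G t l U + B l (al B G t l U) =
        (∑ j ∈ U, (ss B G l j + B l (ss B G l j))) - t • (rho B G l + B l (rho B G l)) := by
      unfold al
      rw [map_sub, map_sum, map_smul, Finset.sum_add_distrib, smul_add]
      abel
    rw [e1]
    unfold al
    rw [inner_sub_left, inner_sub_right, inner_sub_right, sum_inner, sum_inner,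
      real_inner_smul_left, real_inner_smul_left, real_inner_smul_right]
    rw [inner_sum (𝕜 := ℝ) (x := rho B G l)]
    have e2 : ∀ i ∈ U, (inner ℝ (ss B G l i) (∑ j ∈ U, (ss B G l j + B l (ss B G l j))) : ℝ) =
        ∑ j ∈ U, inner ℝ (ss B G l i) (ss B G l j + B l (ss B G l j)) := fun i _ => inner_sum _ _ _
    have e3 : ∀ i ∈ U, (inner ℝ (ss B G l i) (t • (rho B G l + B l (rho B G l))) : ℝ) =
        t * inner ℝ (ss B G l i) (rho B G l + B l (rho B G l)) :=
      fun i _ => real_inner_smul_right _ _ _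
    rw [Finset.sum_congr rfl e2, Finset.sum_congr rfl e3, ← Finset.mul_sum, Finset.sum_add_distrib]
    ring
  rw [h1, P3_flag_add t (fun l U => (∑ i ∈ U, ∑ j ∈ U, inner ℝ (ss B G l i) (ss B G l j + B l (ss B G l j)))
        - t * (∑ i ∈ U, (inner ℝ (ss B G l i) (rho B G l + B l (rho B G l)) +
            inner ℝ (rho B G l) (ss B G l i + B l (ss B G l i)))))
      (fun l _ => t ^ 2 * inner ℝ (rho B G l) (rho B G l + B l (rho B G l))),
    P3_flag_sub t (fun l U => (∑ i ∈ U, ∑ j ∈ U, inner ℝ (ss B G l i) (ss B G l j + B l (ss B G l j))))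
      (fun l U => t * (∑ i ∈ U, (inner ℝ (ss B G l i) (rho B G l + B l (rho B G l)) +
            inner ℝ (rho B G l) (ss B G l i + B l (ss B G l i))))),
    P3_flag_smul t t (fun l U => ∑ i ∈ U, (inner ℝ (ss B G l i) (rho B G l + B l (rho B G l)) +
            inner ℝ (rho B G l) (ss B G l i + B l (ss B G l i)))),
    P3_flag_smul t (t ^ 2) (fun l _ => inner ℝ (rho B G l) (rho B G l + B l (rho B G l))),
    C3c t (fun l i j => inner ℝ (ss B G l i) (ss B G l j + B l (ss B G l j))),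
    C3b t (fun l i => (inner ℝ (ss B G l i) (rho B G l + B l (rho B G l)) +
            inner ℝ (rho B G l) (ss B G l i + B l (ss B G l i)))),
    C3a t (fun l => inner ℝ (rho B G l) (rho B G l + B l (rho B G l)))]
  have hRT : ∀ l, rho B G l + B l (rho B G l) =
      ∑ j ∈ Finset.univ.erase l, (ss B G l j + B l (ss B G l j)) := by
    intro l
    rw [Finset.sum_add_distrib, ← map_sum, ← P3_rho]
  have h2 : ∑ l, ∑ i ∈ Finset.univ.erase l, ∑ j ∈ Finset.univ.erase l,
      (inner ℝ (ss B G l i) (ss B G l j + B l (ss B G l j)) : ℝ) =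
      ∑ l, (inner ℝ (rho B G l) (rho B G l + B l (rho B G l)) : ℝ) := by
    refine Finset.sum_congr rfl fun l _ => ?_
    have e1 : ∀ i ∈ Finset.univ.erase l, ∑ j ∈ Finset.univ.erase l,
        (inner ℝ (ss B G l i) (ss B G l j + B l (ss B G l j)) : ℝ) =
        inner ℝ (ss B G l i) (rho B G l + B l (rho B G l)) := by
      intro i _
      rw [← inner_sum, ← hRT]
    rw [Finset.sum_congr rfl e1, ← sum_inner, ← P3_rho]
  have h3 : ∑ l, ∑ i ∈ Finset.univ.erase l,
      ((inner ℝ (ss B G l i) (rho B G l + B l (rho B G l)) +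
            inner ℝ (rho B G l) (ss B G l i + B l (ss B G l i))) : ℝ) =
      2 * ∑ l, (inner ℝ (rho B G l) (rho B G l + B l (rho B G l)) : ℝ) := by
    rw [Finset.mul_sum]
    refine Finset.sum_congr rfl fun l _ => ?_
    rw [Finset.sum_add_distrib, ← sum_inner, ← P3_rho, ← inner_sum, ← hRT]
    ring
  rw [h2, h3]
  unfold SS
  ring

end H54I
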