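import Pool.Agent.Lib.H54I.Defs

/-! Chunk P4 (S).  Two pointwise facts about `0 ≤ B ≤ 1` (symmetric, `‖Bx‖² ≤ ⟨x, Bx⟩`).

Proof.  P4a: expand `‖e - Be + α‖²` (`norm_add_sq_real`, `real_inner_self_eq_norm_sq`), using
`⟨Be, e⟩ = ⟨e, Be⟩`, `⟨e, Bα⟩ = ⟨Be, α⟩`.
P4b: with `z = e + α`: `0 ≤ ⟨z - t w, B (z - t w)⟩` gives `⟨z,Bz⟩ ≥ 2t⟨Bz,w⟩ - t²⟨w,Bw⟩`.  With `d = f - (e - Be + α)`:
`0 ≤ ‖d - t B c‖²` gives `‖d‖² ≥ 2t⟨d,Bc⟩ - t²‖Bc‖²`, and `y = e - t c` has `0 ≤ ⟨y,By⟩ - ‖By‖²`, that is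
`⟨e,Be⟩ - ‖Be‖² ≥ 2t(⟨Be,c⟩ - ⟨Be,Bc⟩) - t²(⟨c,Bc⟩ - ‖Bc‖²)`.  Adding the last two, and
`⟨d,Bc⟩ = ⟨B(f - α),c⟩ - ⟨Be,c⟩ + ⟨Be,Bc⟩`, gives the second half. Sum the two halves. -/

namespace H54I

theorem P4a {K : Type*} [NormedAddCommGroup K] [InnerProductSpace ℝ K] (B : K →ₗ[ℝ] K)
    (hsym : ∀ x y, inner ℝ (B x) y = inner ℝ x (B y)) (e α : K) :
    ‖e - B e + α‖ ^ 2 = ‖e‖ ^ 2 + 2 * inner ℝ e α + ‖α‖ ^ 2 + inner ℝ α (B α)
      - inner ℝ (e + α) (B (e + α)) - (inner ℝ e (B e) - ‖B e‖ ^ 2) := by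
  rw [← real_inner_self_eq_norm_sq, ← real_inner_self_eq_norm_sq, ← real_inner_self_eq_norm_sq,
    ← real_inner_self_eq_norm_sq]
  simp only [inner_add_left, inner_add_right, inner_sub_left, inner_sub_right, map_add]
  have h1 := hsym e α
  have h2 := real_inner_comm (B e) α
  have h3 := real_inner_comm e α
  have h4 := real_inner_comm (B e) e
  linarith

theorem P4b {K : Type*} [NormedAddCommGroup K] [InnerProductSpace ℝ K] (B : K →ₗ[ℝ] K)
    (hsym : ∀ x y, inner ℝ (B x) y = inner ℝ x (B y)) (hpos : ∀ x, 0 ≤ inner ℝ x (B x))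
    (hle : ∀ x, ‖B x‖ ^ 2 ≤ inner ℝ x (B x)) (e α f w c : K) (t : ℝ) :
    - inner ℝ (e + α) (B (e + α)) - (inner ℝ e (B e) - ‖B e‖ ^ 2) - ‖f - (e - B e + α)‖ ^ 2 ≤
      - 2 * t * inner ℝ (e + α) (B w) + t ^ 2 * inner ℝ w (B w)
        - 2 * t * inner ℝ (f - α) (B c) + t ^ 2 * inner ℝ c (B c) := by
  have h1 := hpos (e + α - t • w)
  have h2 : 0 ≤ inner ℝ ((f - (e - B e + α)) - t • B c) ((f - (e - B e + α)) - t • B c) :=
    real_inner_self_nonneg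
  have h3 := hle (e - t • c)
  rw [← real_inner_self_eq_norm_sq] at h3
  rw [← real_inner_self_eq_norm_sq, ← real_inner_self_eq_norm_sq]
  simp only [inner_add_left, inner_add_right, inner_sub_left, inner_sub_right, map_add, map_sub,
    map_smul, real_inner_smul_left, real_inner_smul_right] at h1 h2 h3 ⊢
  have s1 := hsym e w
  have s2 := hsym α w
  have s3 := real_inner_comm e (B w)
  have s4 := real_inner_comm (B e) w
  have s5 := real_inner_comm (B α) w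
  have s6 := hsym e c
  have s9 := real_inner_comm (B e) c
  have s11 := real_inner_comm (B e) (B c)
  have s12 := real_inner_comm e (B c)
  have s13 := real_inner_comm f (B c)
  have s14 := real_inner_comm α (B c)
  simp only [s1, s2, s4, s5, s6, s9, s11, s12, s13, s14] at h1 h2 h3 ⊢
  have s15 := real_inner_comm e α
  have s16 := real_inner_comm e f
  have s17 := real_inner_comm f α
  have s18 := real_inner_comm (B e) f
  have s19 := real_inner_comm (B e) e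
  have s20 := real_inner_comm (B e) α
  linarith

end H54I
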