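import Pool.Agent.Lib.H54I.P1
import Pool.Agent.Lib.H54I.P2
import Pool.Agent.Lib.H54I.P3
import Pool.Agent.Lib.H54I.P4

/-! Chunk M1 (M).  The differential inequality at time `t`.

Proof.  Put `I = flag t (2⟨ee U, ∑_{i ∉ U+l} ss l i⟩)`, `c = w - v = ∑ B_l v`.  By P2b and P2a and P4a,
`I + flag t (‖ee (insert l U)‖² - ‖ee U‖²) = 2 ex t ⟨ee U, QQ⟩ + flag t (‖al‖² + ⟨al,B al⟩ - ⟨z,Bz⟩ - (⟨e,Be⟩ - ‖Be‖²) - ‖d‖²)`
(`z = e + al`, `d = ee (insert l U) - x⁺`; `∑_{l ∈ U} rho + ∑_{l ∉ U} rho = QQ`, A2b).  By P4b and P3a (no `al` terms), P3b, C3a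
(`flag t ⟨w,B_l w⟩ = ⟨w, ∑ B_l w⟩`), P2d,
`≤ 2 ex t ⟨ee U, QQ⟩ + (t - t²) SS + t² (⟨w, ∑B_l w⟩ + ⟨c, ∑B_l c⟩) - 2t flag t ⟨e, B_l w⟩ - 2 ex t ⟨ee U, ∑ B_l c⟩
+ 2 (1-t) flag t ⟨e, B_l c⟩`.  Here `QQ = w + ∑B_l w = w + c + ∑ B_l c` (`w = v + c`, `∑B_l w = ∑B_l v + ∑B_l c`), so the `ex` terms
are `2 ex t ⟨ee U, w + c⟩`. By symmetry `⟨e, B_l w⟩ = ⟨B_l e, w⟩`, and P2c (with P3a, A2b, C3a) replaces
`flag t ⟨B_l e, y⟩` by `t ⟨QQ, y⟩ - μ_y'`, `μ_y' = flag t (⟨ee (insert l U), y⟩ - ⟨ee U, y⟩)`: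
`-2t flag⟨B_l e,w⟩ + 2(1-t) flag⟨B_l e,c⟩ = -2t² ⟨QQ, w + c⟩ + 2t ⟨QQ, c⟩ + 2t μ_{w+c}' - 2 μ_c'`. -/

namespace H54I

theorem M1_flag_add {ι : Type*} [Fintype ι] [DecidableEq ι] (t : ℝ) (f g : ι → Finset ι → ℝ) :
    flag t (fun l U => f l U + g l U) = flag t f + flag t g := by
  unfold flag
  rw [← Finset.sum_add_distrib]
  refine Finset.sum_congr rfl fun U _ => ?_
  rw [← Finset.sum_add_distrib]
  exact Finset.sum_congr rfl fun l _ => mul_add _ _ _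

theorem M1_flag_mul {ι : Type*} [Fintype ι] [DecidableEq ι] (t a : ℝ) (f : ι → Finset ι → ℝ) :
    flag t (fun l U => a * f l U) = a * flag t f := by
  unfold flag
  rw [Finset.mul_sum]
  refine Finset.sum_congr rfl fun U _ => ?_
  rw [Finset.mul_sum]
  exact Finset.sum_congr rfl fun l _ => mul_left_comm _ _ _

theorem M1_flag_mono {ι : Type*} [Fintype ι] [DecidableEq ι] (t : ℝ) (ht : 0 ≤ t) (ht1 : t ≤ 1)
    (f g : ι → Finset ι → ℝ) (h : ∀ l U, f l U ≤ g l U) : flag t f ≤ flag t g := by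
  unfold flag
  refine Finset.sum_le_sum fun U _ => Finset.sum_le_sum fun l _ => ?_
  refine mul_le_mul_of_nonneg_left (h l U) ?_
  unfold om
  exact mul_nonneg (pow_nonneg ht _) (pow_nonneg (by linarith) _)

theorem M1_ex_add {ι : Type*} [Fintype ι] (t : ℝ) (f g : Finset ι → ℝ) :
    ex t (fun U => f U + g U) = ex t f + ex t g := by
  unfold ex
  rw [← Finset.sum_add_distrib]
  exact Finset.sum_congr rfl fun l _ => mul_add _ _ _

theorem M1_point {K : Type*} [NormedAddCommGroup K] [InnerProductSpace ℝ K] (B : K →ₗ[ℝ] K)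
    (hsym : ∀ x y, inner ℝ (B x) y = inner ℝ x (B y)) (hpos : ∀ x, 0 ≤ inner ℝ x (B x))
    (hle : ∀ x, ‖B x‖ ^ 2 ≤ inner ℝ x (B x)) (e α f w c : K) (t : ℝ) :
    ‖e - B e + α‖ ^ 2 - ‖e‖ ^ 2 - ‖f - (e - B e + α)‖ ^ 2 ≤
      2 * inner ℝ e α + ((‖α‖ ^ 2 + inner ℝ α (B α)) + ((-(2 * t)) * inner ℝ e (B w)
        + ((-(2 * t)) * inner ℝ α (B w) + (t ^ 2 * inner ℝ w (B w)
        + ((-(2 * t)) * inner ℝ f (B c) + ((2 * t) * inner ℝ α (B c) + t ^ 2 * inner ℝ c (B c))))))) := by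
  have h1 := P4a B hsym e α
  have h2 := P4b B hsym hpos hle e α f w c t
  have h3 : inner ℝ (e + α) (B w) = inner ℝ e (B w) + inner ℝ α (B w) := inner_add_left _ _ _
  have h4 : inner ℝ (f - α) (B c) = inner ℝ f (B c) - inner ℝ α (B c) := inner_sub_left _ _ _
  rw [h3, h4] at h2
  rw [h1]
  linarith

theorem M1 {ι K : Type*} [Fintype ι] [DecidableEq ι] [NormedAddCommGroup K] [InnerProductSpace ℝ K]
    (B : ι → K →ₗ[ℝ] K) (hsym : ∀ l x y, inner ℝ (B l x) y = inner ℝ x (B l y))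
    (hpos : ∀ l x, 0 ≤ inner ℝ x (B l x)) (hle : ∀ l x, ‖B l x‖ ^ 2 ≤ inner ℝ x (B l x)) (G : ι → K)
    (w v : K) (hw : w + ∑ l, B l w = QQ B G) (hv : v + ∑ l, B l v = w) (t : ℝ) (ht : 0 ≤ t)
    (ht1 : t ≤ 1) :
    flag t (fun l U => 2 * inner ℝ (ee B G U) (∑ i ∈ (insert l U)ᶜ, ss B G l i))
      + flag t (fun l U => ‖ee B G (insert l U)‖ ^ 2 - ‖ee B G U‖ ^ 2)
      - 2 * t * flag t (fun l U => inner ℝ (ee B G (insert l U)) (w + (w - v))
          - inner ℝ (ee B G U) (w + (w - v)))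
      - 2 * ex t (fun U => inner ℝ (ee B G U) (w + (w - v)))
      + 2 * flag t (fun l U => inner ℝ (ee B G (insert l U)) (w - v) - inner ℝ (ee B G U) (w - v))
      ≤ (t - t ^ 2) * SS B G
        + t ^ 2 * (inner ℝ w (∑ l, B l w) + inner ℝ (w - v) (∑ l, B l (w - v)))
        - 2 * t ^ 2 * inner ℝ (QQ B G) (w + (w - v)) + 2 * t * inner ℝ (QQ B G) (w - v) := by
  have hB : ∀ x y : K, ∑ l, B l (x + y) = ∑ l, B l x + ∑ l, B l y := by
    intro x y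
    rw [← Finset.sum_add_distrib]
    exact Finset.sum_congr rfl fun l _ => map_add _ _ _
  obtain ⟨c, hc⟩ : ∃ c : K, c = w - v := ⟨_, rfl⟩
  rw [← hc]
  have hwvc : w = v + c := by rw [hc]; abel
  have hcB : ∑ l, B l v = c := by
    have h1 : ∑ l, B l v = (v + ∑ l, B l v) - v := by abel
    rw [h1, hv, hc]
  have hQ : QQ B G = (w + c) + ∑ l, B l c := by
    rw [← hw]
    nth_rewrite 2 [hwvc]
    rw [hB, hcB]
    abel
  -- the basic quantities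
  have hP2a := P2a B G t
  have hP2b := P2b B G t
  have hkey : flag t (fun l U => ‖ee B G U - B l (ee B G U) + al B G t l U‖ ^ 2 - ‖ee B G U‖ ^ 2
          - ‖ee B G (insert l U) - (ee B G U - B l (ee B G U) + al B G t l U)‖ ^ 2) ≤
      2 * flag t (fun l U => inner ℝ (ee B G U) (al B G t l U)) + ((t - t ^ 2) * SS B G
        + ((-(2 * t)) * flag t (fun l U => inner ℝ (ee B G U) (B l w))
        + ((-(2 * t)) * 0 + (t ^ 2 * inner ℝ w (∑ l, B l w)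
        + ((-(2 * t)) * flag t (fun l U => inner ℝ (ee B G (insert l U)) (B l c))
          + ((2 * t) * 0 + t ^ 2 * inner ℝ c (∑ l, B l c))))))) := by
    refine (M1_flag_mono t ht ht1 _ _ (fun l U => M1_point (B l) (hsym l) (hpos l) (hle l)
      (ee B G U) (al B G t l U) (ee B G (insert l U)) w c t)).trans (le_of_eq ?_)
    have h3b := P3b B hsym G t
    rw [M1_flag_add] at h3b
    rw [M1_flag_add, M1_flag_add, M1_flag_add, M1_flag_add, M1_flag_add, M1_flag_add, M1_flag_add,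
      M1_flag_add, M1_flag_mul, M1_flag_mul, M1_flag_mul, M1_flag_mul, M1_flag_mul, M1_flag_mul,
      M1_flag_mul, P3a B G (fun l => B l w) t, P3a B G (fun l => B l c) t,
      C3a t (fun l => inner ℝ w (B l w)), C3a t (fun l => inner ℝ c (B l c)), inner_sum, inner_sum, h3b]
  have hP2d := P2d B G c t
  have hmu : ∀ y : K, flag t (fun l U => inner ℝ (ee B G U) (B l y)) = t * inner ℝ (QQ B G) y
      - flag t (fun l U => inner ℝ (ee B G (insert l U)) y - inner ℝ (ee B G U) y) := by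
    intro y
    have h1 := P2c B G y t
    have h2 := P3a B G (fun _ => y) t
    have h3 : flag t (fun l _ => inner ℝ (rho B G l) y) = inner ℝ (QQ B G) y := by
      rw [C3a t (fun l => inner ℝ (rho B G l) y), ← A2b, sum_inner]
    have h4 : flag t (fun l U => inner ℝ (B l (ee B G U)) y) =
        flag t (fun l U => inner ℝ (ee B G U) (B l y)) := by
      congr 1
      funext l U
      exact hsym l _ _
    rw [h2, h3, h4] at h1
    linarith
  have hmw := hmu w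
  have hmc := hmu c
  have hsplit : flag t (fun l U => inner ℝ (ee B G (insert l U)) (w + c)
          - inner ℝ (ee B G U) (w + c)) =
      flag t (fun l U => inner ℝ (ee B G (insert l U)) w - inner ℝ (ee B G U) w)
        + flag t (fun l U => inner ℝ (ee B G (insert l U)) c - inner ℝ (ee B G U) c) := by
    rw [← M1_flag_add]
    congr 1
    funext l U
    rw [inner_add_right, inner_add_right]
    ring
  have hex1 : ex t (fun U => inner ℝ (ee B G U) (∑ l ∈ U, rho B G l))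
      + ex t (fun U => inner ℝ (ee B G U) (∑ l ∈ Uᶜ, rho B G l)) =
      ex t (fun U => inner ℝ (ee B G U) (w + c)) + ex t (fun U => inner ℝ (ee B G U) (∑ l, B l c)) := by
    rw [← M1_ex_add, ← M1_ex_add]
    congr 1
    funext U
    rw [← inner_add_right, ← inner_add_right, ← hQ, ← A2b, Finset.sum_add_sum_compl]
  have hqq : inner ℝ (QQ B G) (w + c) = inner ℝ (QQ B G) w + inner ℝ (QQ B G) c :=
    inner_add_right _ _ _
  rw [hP2a, hP2b, hsplit, hqq]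
  obtain ⟨X1, hX1⟩ : ∃ X : ℝ, X = ex t (fun U => inner ℝ (ee B G U) (∑ l ∈ U, rho B G l)) := ⟨_, rfl⟩
  obtain ⟨X2, hX2⟩ : ∃ X : ℝ, X = ex t (fun U => inner ℝ (ee B G U) (∑ l ∈ Uᶜ, rho B G l)) := ⟨_, rfl⟩
  obtain ⟨X3, hX3⟩ : ∃ X : ℝ, X = ex t (fun U => inner ℝ (ee B G U) (w + c)) := ⟨_, rfl⟩
  obtain ⟨X4, hX4⟩ : ∃ X : ℝ, X = ex t (fun U => inner ℝ (ee B G U) (∑ l, B l c)) := ⟨_, rfl⟩
  rw [← hX1, ← hX2, ← hX3, ← hX4] at hex1
  rw [← hX1, ← hX2, ← hX3]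
  rw [← hX4] at hP2d
  obtain ⟨Y1, hY1⟩ : ∃ X : ℝ, X = flag t (fun l U => inner ℝ (ee B G U) (B l w)) := ⟨_, rfl⟩
  obtain ⟨Y2, hY2⟩ : ∃ X : ℝ, X = flag t (fun l U => inner ℝ (ee B G U) (B l c)) := ⟨_, rfl⟩
  obtain ⟨Y3, hY3⟩ : ∃ X : ℝ, X = flag t (fun l U => inner ℝ (ee B G (insert l U)) (B l c)) := ⟨_, rfl⟩
  rw [← hY1, ← hY3] at hkey
  rw [← hY3, ← hY2] at hP2d
  rw [← hY1] at hmw
  rw [← hY2] at hmc
  obtain ⟨M1', hM1'⟩ : ∃ X : ℝ, X = flag t (fun l U => inner ℝ (ee B G (insert l U)) w - inner ℝ (ee B G U) w) := ⟨_, rfl⟩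
  obtain ⟨M2', hM2'⟩ : ∃ X : ℝ, X = flag t (fun l U => inner ℝ (ee B G (insert l U)) c - inner ℝ (ee B G U) c) := ⟨_, rfl⟩
  rw [← hM1'] at hmw
  rw [← hM2'] at hmc
  rw [← hM1', ← hM2']
  have e1 : (-(2 * t)) * Y1 = -2 * t * (t * inner ℝ (QQ B G) w - M1') := by rw [hmw]; ring
  have e2 : (-(2 * t)) * Y3 = -2 * X4 + 2 * (1 - t) * (t * inner ℝ (QQ B G) c - M2') := by
    rw [← hmc]
    have : t * Y3 = X4 - (1 - t) * Y2 := hP2d
    linear_combination (-2) * this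
  rw [e1, e2] at hkey
  have e3 : X1 + X2 = X3 + X4 := hex1
  nlinarith [hkey, e3]

end H54I
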