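import Pool.Agent.Lib.H54I.A2
import Pool.Agent.Lib.H54I.C2
import Pool.Agent.Lib.H54I.C3

/-! Chunk P1 (M).  The derivative of the mean of `F`.

Proof.  P1a: `C2` for `Ψ = Fb`; by `C1a`, `flag t (fun l U => Fb (insert l U)) = ∑_U om' t U * (card U * Fb U)` (the inner sum
is constant), `A1b` turns this into `∑_U om' t U * ∑_{l ∈ U} (Fb (U.erase l) - 2⟨ee (U.erase l), G l⟩)`, and `C1a` back, with
`f l U = Fb (U.erase l) - 2⟨ee (U.erase l), G l⟩`, `(insert l U).erase l = U` for `l ∉ U`.
P1b: in the same way, with `A1a`, `flag t (fun l U => ⟨ee (insert l U), gs (insert l U)ᶜ⟩) =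
flag t (fun l U => ⟨ee U - B_l ee U + B_l gs U, gs (insert l U)ᶜ⟩)`.  For `l ∉ U`, `gs Uᶜ = G_l + gs (insert l U)ᶜ`.  Hence
`flag t (fun l U => ⟨ee (insert l U), gs (insert l U)ᶜ⟩ - ⟨ee U, gs Uᶜ⟩) =
flag t (fun l U => - ⟨ee U, G_l⟩ - ⟨ee U, B_l gs (insert l U)ᶜ⟩ + ⟨B_l gs U, gs (insert l U)ᶜ⟩)`.  The middle term is
`A2f` (the weight `om t U` does not depend on `l`).  For the last one `gs (insert l U)ᶜ = vv l - gs U`, and `C3b`, `C3c` give
`flag t (fun l U => ⟨B_l gs U, vv l⟩) = t * PP`, `flag t (fun l U => ⟨B_l gs U, gs U⟩) = t^2 * PP + (t - t^2) * WW`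
(`∑_{i ≠ l} G_i = vv l`). -/

namespace H54I

private theorem P1_flag_congr {ι : Type*} [Fintype ι] [DecidableEq ι] (t : ℝ)
    (f g : ι → Finset ι → ℝ) (h : ∀ U : Finset ι, ∀ l, l ∉ U → f l U = g l U) :
    flag t f = flag t g := by
  unfold flag
  refine Finset.sum_congr rfl fun U _ => Finset.sum_congr rfl fun l hl => ?_
  rw [h U l (Finset.mem_compl.1 hl)]

private theorem P1_flag_add {ι : Type*} [Fintype ι] [DecidableEq ι] (t : ℝ)
    (f g : ι → Finset ι → ℝ) :
    flag t (fun l U => f l U + g l U) = flag t f + flag t g := by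
  unfold flag
  rw [← Finset.sum_add_distrib]
  refine Finset.sum_congr rfl fun U _ => ?_
  rw [← Finset.sum_add_distrib]
  exact Finset.sum_congr rfl fun l _ => mul_add _ _ _

private theorem P1_flag_sub {ι : Type*} [Fintype ι] [DecidableEq ι] (t : ℝ)
    (f g : ι → Finset ι → ℝ) :
    flag t (fun l U => f l U - g l U) = flag t f - flag t g := by
  unfold flag
  rw [← Finset.sum_sub_distrib]
  refine Finset.sum_congr rfl fun U _ => ?_
  rw [← Finset.sum_sub_distrib]
  exact Finset.sum_congr rfl fun l _ => mul_sub _ _ _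

private theorem P1_flag_smul {ι : Type*} [Fintype ι] [DecidableEq ι] (t c : ℝ)
    (f : ι → Finset ι → ℝ) :
    flag t (fun l U => c * f l U) = c * flag t f := by
  unfold flag
  rw [Finset.mul_sum]
  refine Finset.sum_congr rfl fun U _ => ?_
  rw [Finset.mul_sum]
  exact Finset.sum_congr rfl fun l _ => by ring

private theorem P1_shift {ι : Type*} [Fintype ι] [DecidableEq ι] (t : ℝ) (Ψ : Finset ι → ℝ)
    (h : ι → Finset ι → ℝ)
    (H : ∀ U : Finset ι, (U.card : ℝ) * Ψ U = ∑ l ∈ U, h l (U.erase l)) :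
    flag t (fun l U => Ψ (insert l U)) = flag t h := by
  rw [C1a t (fun _ U => Ψ U)]
  have h1 : flag t h = flag t (fun l U => h l ((insert l U).erase l)) := by
    refine P1_flag_congr t _ _ fun U l hl => ?_
    rw [Finset.erase_insert hl]
  rw [h1, C1a t (fun l U => h l (U.erase l))]
  refine Finset.sum_congr rfl fun U _ => ?_
  rw [← H U, Finset.sum_const, nsmul_eq_mul]

theorem P1a {ι K : Type*} [Fintype ι] [DecidableEq ι] [NormedAddCommGroup K] [InnerProductSpace ℝ K]
    (B : ι → K →ₗ[ℝ] K) (G : ι → K) (t : ℝ) :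
    HasDerivAt (fun t => ex t (Fb B G))
      (flag t (fun l U => - 2 * inner ℝ (ee B G U) (G l))) t := by
  have h1 := C2 (Fb B G) t
  have h2 : flag t (fun l U => Fb B G (insert l U)) =
      flag t (fun l U => Fb B G U - 2 * inner ℝ (ee B G U) (G l)) :=
    P1_shift t (Fb B G) (fun l U => Fb B G U - 2 * inner ℝ (ee B G U) (G l)) (A1b B G)
  have h3 : flag t (fun l U => Fb B G (insert l U) - Fb B G U) =
      flag t (fun l U => - 2 * inner ℝ (ee B G U) (G l)) := by
    rw [P1_flag_sub t (fun l U => Fb B G (insert l U)) (fun _ U => Fb B G U), h2,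
      ← P1_flag_sub t _ (fun _ U => Fb B G U)]
    refine P1_flag_congr t _ _ fun U l _ => ?_
    ring
  rw [← h3]
  exact h1

private theorem P1_gs_compl {ι K : Type*} [Fintype ι] [DecidableEq ι] [AddCommGroup K]
    (G : ι → K) (U : Finset ι) (l : ι) (hl : l ∉ U) :
    gs G Uᶜ = G l + gs G (insert l U)ᶜ := by
  unfold gs
  rw [Finset.compl_insert, Finset.add_sum_erase _ _ (Finset.mem_compl.2 hl)]

private theorem P1_gs_vv {ι K : Type*} [Fintype ι] [DecidableEq ι] [AddCommGroup K]
    (G : ι → K) (U : Finset ι) (l : ι) (hl : l ∉ U) :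
    gs G (insert l U)ᶜ = vv G l - gs G U := by
  have h1 := P1_gs_compl G U l hl
  have h2 : gs G U + gs G Uᶜ = ∑ i, G i := by
    unfold gs
    exact Finset.sum_add_sum_compl U G
  unfold vv
  rw [← h2, h1]
  abel

private theorem P1_vv {ι K : Type*} [Fintype ι] [DecidableEq ι] [AddCommGroup K]
    (G : ι → K) (l : ι) : vv G l = ∑ i ∈ Finset.univ.erase l, G i := by
  unfold vv
  rw [← Finset.add_sum_erase Finset.univ _ (Finset.mem_univ l), add_sub_cancel_left]

theorem P1b {ι K : Type*} [Fintype ι] [DecidableEq ι] [NormedAddCommGroup K] [InnerProductSpace ℝ K]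
    (B : ι → K →ₗ[ℝ] K) (hsym : ∀ l x y, inner ℝ (B l x) y = inner ℝ x (B l y)) (G : ι → K) (t : ℝ) :
    flag t (fun l U => - 2 * inner ℝ (ee B G U) (G l)) =
      2 * flag t (fun l U => inner ℝ (ee B G (insert l U)) (gs G (insert l U)ᶜ)
          - inner ℝ (ee B G U) (gs G Uᶜ))
        + flag t (fun l U => 2 * inner ℝ (ee B G U) (∑ i ∈ (insert l U)ᶜ, ss B G l i))
        - 2 * (t - t ^ 2) * (PP B G - WW B G) := by
  -- the shifted term
  have h1 : flag t (fun l U => inner ℝ (ee B G (insert l U)) (gs G (insert l U)ᶜ)) =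
      flag t (fun l U => inner ℝ (ee B G U - B l (ee B G U) + B l (gs G U)) (gs G (insert l U)ᶜ)) := by
    refine P1_shift t (fun U => inner ℝ (ee B G U) (gs G Uᶜ))
      (fun l U => inner ℝ (ee B G U - B l (ee B G U) + B l (gs G U)) (gs G (insert l U)ᶜ)) ?_
    intro U
    rw [← real_inner_smul_left, A1a, sum_inner]
    refine Finset.sum_congr rfl fun l hl => ?_
    rw [Finset.insert_erase hl]
  -- the middle term
  have h2 : flag t (fun l U => inner ℝ (B l (ee B G U)) (gs G (insert l U)ᶜ)) =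
      flag t (fun l U => inner ℝ (ee B G U) (∑ i ∈ (insert l U)ᶜ, ss B G l i)) := by
    unfold flag
    refine Finset.sum_congr rfl fun U _ => ?_
    rw [← Finset.mul_sum, ← Finset.mul_sum]
    congr 1
    have : ∀ l ∈ Uᶜ, inner ℝ (B l (ee B G U)) (gs G (insert l U)ᶜ) =
        inner ℝ (ee B G U) (B l (gs G (insert l U)ᶜ)) := fun l _ => hsym l _ _
    rw [Finset.sum_congr rfl this, ← inner_sum, ← inner_sum, A2f]
  -- the last term
  have h3 : flag t (fun l U => inner ℝ (B l (gs G U)) (vv G l)) = t * PP B G := by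
    have : flag t (fun l U => inner ℝ (B l (gs G U)) (vv G l)) =
        flag t (fun l U => ∑ i ∈ U, inner ℝ (B l (G i)) (vv G l)) := by
      refine P1_flag_congr t _ _ fun U l _ => ?_
      unfold gs
      rw [map_sum, sum_inner]
    rw [this, C3b t (fun l i => inner ℝ (B l (G i)) (vv G l))]
    congr 1
    unfold PP
    refine Finset.sum_congr rfl fun l _ => ?_
    rw [← sum_inner, ← map_sum, ← P1_vv, hsym]
  have h4 : flag t (fun l U => inner ℝ (B l (gs G U)) (gs G U)) =
      t ^ 2 * PP B G + (t - t ^ 2) * WW B G := by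
    have : flag t (fun l U => inner ℝ (B l (gs G U)) (gs G U)) =
        flag t (fun l U => ∑ i ∈ U, ∑ j ∈ U, inner ℝ (B l (G i)) (G j)) := by
      refine P1_flag_congr t _ _ fun U l _ => ?_
      unfold gs
      rw [map_sum, sum_inner]
      exact Finset.sum_congr rfl fun i _ => inner_sum _ _ _
    rw [this, C3c t (fun l i j => inner ℝ (B l (G i)) (G j))]
    congr 1
    · congr 1
      unfold PP
      refine Finset.sum_congr rfl fun l _ => ?_
      have e1 : ∀ i ∈ Finset.univ.erase l, ∑ j ∈ Finset.univ.erase l, inner ℝ (B l (G i)) (G j) =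
          inner ℝ (B l (G i)) (vv G l) := by
        intro i _
        rw [← inner_sum, ← P1_vv]
      rw [Finset.sum_congr rfl e1, ← sum_inner, ← map_sum, ← P1_vv, hsym]
    · congr 1
      unfold WW
      refine Finset.sum_congr rfl fun l _ => Finset.sum_congr rfl fun i _ => ?_
      rw [hsym]
  have h5 : flag t (fun l U => inner ℝ (B l (gs G U)) (gs G (insert l U)ᶜ)) =
      (t - t ^ 2) * (PP B G - WW B G) := by
    have : flag t (fun l U => inner ℝ (B l (gs G U)) (gs G (insert l U)ᶜ)) =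
        flag t (fun l U => inner ℝ (B l (gs G U)) (vv G l) - inner ℝ (B l (gs G U)) (gs G U)) := by
      refine P1_flag_congr t _ _ fun U l hl => ?_
      rw [P1_gs_vv G U l hl, inner_sub_right]
    rw [this, P1_flag_sub t (fun l U => inner ℝ (B l (gs G U)) (vv G l))
      (fun l U => inner ℝ (B l (gs G U)) (gs G U)), h3, h4]
    ring
  have h6 : flag t (fun l U => inner ℝ (ee B G (insert l U)) (gs G (insert l U)ᶜ)
          - inner ℝ (ee B G U) (gs G Uᶜ)) =
      flag t (fun l U => inner ℝ (B l (gs G U)) (gs G (insert l U)ᶜ))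
        - flag t (fun l U => inner ℝ (B l (ee B G U)) (gs G (insert l U)ᶜ))
        - flag t (fun l U => inner ℝ (ee B G U) (G l)) := by
    rw [P1_flag_sub t (fun l U => inner ℝ (ee B G (insert l U)) (gs G (insert l U)ᶜ))
      (fun _ U => inner ℝ (ee B G U) (gs G Uᶜ)), h1,
      ← P1_flag_sub t _ (fun _ U => inner ℝ (ee B G U) (gs G Uᶜ)),
      ← P1_flag_sub t (fun l U => inner ℝ (B l (gs G U)) (gs G (insert l U)ᶜ))
        (fun l U => inner ℝ (B l (ee B G U)) (gs G (insert l U)ᶜ)),
      ← P1_flag_sub t _ (fun l U => inner ℝ (ee B G U) (G l))]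
    refine P1_flag_congr t _ _ fun U l hl => ?_
    rw [P1_gs_compl G U l hl]
    simp only [inner_add_left, inner_sub_left, inner_add_right]
    ring
  rw [h6, h5, h2, P1_flag_smul t (-2) (fun l U => inner ℝ (ee B G U) (G l)),
    P1_flag_smul t 2 (fun l U => inner ℝ (ee B G U) (∑ i ∈ (insert l U)ᶜ, ss B G l i))]
  ring

end H54I
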